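import Mathlib

/-! terminating quadratic and Pfaff transformations -/

set_option autoImplicit false
set_option linter.unusedVariables false

namespace Pool.Agent.N926.Qd

open Finset Polynomial

def rho (B : ℚ) (k : ℕ) : ℚ := ∏ i ∈ range k, (2*(i:ℚ)+1)/(B+1+2*i)
def Rn (B : ℚ) (n : ℕ) : ℚ := ∏ j ∈ range n, (B+2*(j:ℚ))/(B+j)

theorem Rn_shift (B : ℚ) (n : ℕ) (hB : ∀ j : ℕ, j < n+2 → B + j ≠ 0) : Rn (B+2) n * (B+n+1) = Rn B (n+1) * (B+1) := by
  induction n with
  | zero =>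
    have h0 := hB 0 (by omega)
    simp only [Nat.cast_zero, add_zero] at h0
    simp [Rn, div_self h0]
  | succ n ih =>
    have ih := ih (fun j hj => hB j (by omega))
    have h1 := hB (n+1) (by omega)
    have h2 := hB (n+2) (by omega)
    push_cast at h1 h2
    have e1 : Rn (B+2) (n+1) = Rn (B+2) n * ((B+2+2*n)/(B+2+n)) := by unfold Rn; rw [prod_range_succ]
    have e2 : Rn B (n+1+1) = Rn B (n+1) * ((B+2*((n+1:ℕ):ℚ))/(B+((n+1:ℕ):ℚ))) := by unfold Rn; rw [prod_range_succ]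
    rw [e1, e2]
    push_cast
    have h3 : B+2+(n:ℚ) ≠ 0 := by intro h; apply h2; linarith
    have h4 : B+((n:ℚ)+1) ≠ 0 := h1
    have h5 : B+(n:ℚ)+1 ≠ 0 := by intro h; apply h1; linarith
    have e3 : Rn (B+2) n = Rn B (n+1) * (B+1) / (B+n+1) := by rw [eq_div_iff h5]; exact ih
    rw [e3]
    field_simp
    ring

theorem gauss : ∀ (n : ℕ) (B : ℚ), (∀ j : ℕ, j < n → B + j ≠ 0) →
    ∑ k ∈ range (n+1), ((n.choose (2*k) : ℕ) : ℚ) * rho B k = Rn B n
  | 0, B, _ => by simp [rho, Rn]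
  | 1, B, hB => by
    have h0 := hB 0 (by omega)
    simp only [Nat.cast_zero, add_zero] at h0
    simp [rho, Rn, sum_range_succ, div_self h0]
  | (n+2), B, hB => by
    have i1 := gauss (n+1) B (fun j hj => hB j (by omega))
    have i2 := gauss n (B+2) (fun j hj => by
      have := hB (j+2) (by omega)
      push_cast at this
      intro h
      apply this
      linarith)
    have hb1 : B + 1 ≠ 0 := by
      have := hB 1 (by omega)
      simpa using this
    have hbn : B + n + 1 ≠ 0 := by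
      have := hB (n+1) (by omega)
      push_cast at this
      intro h; apply this; linarith
    have hs := Rn_shift B n hB
    have e0 : ∀ k : ℕ, rho B (k+1) = rho (B+2) k * ((2*k+1)/(B+1)) := by
      intro k
      unfold rho
      rw [prod_div_distrib, prod_div_distrib, prod_range_succ (fun i : ℕ => 2*(i:ℚ)+1), prod_range_succ' (fun i : ℕ => B+1+2*(i:ℚ))]
      have : ∏ i ∈ range k, (B+1+2*((i+1:ℕ):ℚ)) = ∏ i ∈ range k, (B+2+1+2*(i:ℚ)) :=
        prod_congr rfl fun i _ => by push_cast; ring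
      rw [this, Nat.cast_zero, mul_zero, add_zero, mul_div_mul_comm]
    have e1 : ∑ k ∈ range (n+2+1), (((n+2).choose (2*k) : ℕ) : ℚ) * rho B k =
        ∑ k ∈ range (n+1+1), (((n+1).choose (2*k) : ℕ) : ℚ) * rho B k +
        ∑ k ∈ range (n+1+1), (((n+1).choose (2*k+1) : ℕ) : ℚ) * rho B (k+1) := by
      have h1 : ∑ k ∈ range (n+1+1), (((n+1).choose (2*k) : ℕ) : ℚ) * rho B k =
          ∑ k ∈ range (n+1+1+1), (((n+1).choose (2*k) : ℕ) : ℚ) * rho B k := by
        rw [sum_range_succ _ (n+1+1), Nat.choose_eq_zero_of_lt (show n+1 < 2*(n+1+1) by omega)]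
        simp
      rw [h1, sum_range_succ', sum_range_succ' _ (n+1+1)]
      have h2 : ∑ k ∈ range (n+1+1), (((n+2).choose (2*(k+1)) : ℕ) : ℚ) * rho B (k+1) =
          ∑ k ∈ range (n+1+1), (((n+1).choose (2*(k+1)) : ℕ) : ℚ) * rho B (k+1) + ∑ k ∈ range (n+1+1), (((n+1).choose (2*k+1) : ℕ) : ℚ) * rho B (k+1) := by
        rw [← sum_add_distrib]
        refine sum_congr rfl fun k _ => ?_
        have : (n+2).choose (2*(k+1)) = (n+1).choose (2*k+1) + (n+1).choose (2*(k+1)) := by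
          rw [show n+2 = (n+1)+1 by ring, show 2*(k+1) = (2*k+1)+1 by ring, Nat.choose_succ_succ]
        rw [this]
        push_cast
        ring
      rw [h2]
      simp only [mul_zero, Nat.choose_zero_right]
      ring
    have e2 : ∑ k ∈ range (n+1+1), (((n+1).choose (2*k+1) : ℕ) : ℚ) * rho B (k+1) = ((n:ℚ)+1)/(B+1) * Rn (B+2) n := by
      rw [← i2, mul_sum]
      rw [sum_range_succ, Nat.choose_eq_zero_of_lt (show n+1 < 2*(n+1)+1 by omega)]
      simp only [Nat.cast_zero, zero_mul, add_zero]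
      refine sum_congr rfl fun k _ => ?_
      rw [e0]
      have h3 : (2*(k:ℚ)+1) * (((n+1).choose (2*k+1) : ℕ) : ℚ) = ((n:ℚ)+1) * ((n.choose (2*k) : ℕ) : ℚ) := by
        have := congrArg (fun z : ℕ => (z:ℚ)) (Nat.add_one_mul_choose_eq n (2*k))
        push_cast at this
        linarith
      calc (((n+1).choose (2*k+1) : ℕ) : ℚ) * (rho (B+2) k * ((2*k+1)/(B+1)))
          = ((2*(k:ℚ)+1) * (((n+1).choose (2*k+1) : ℕ) : ℚ)) * rho (B+2) k / (B+1) := by ring
        _ = _ := by rw [h3]; ring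
    rw [e1, i1, e2]
    have e3 : Rn B (n+2) = Rn B (n+1) * ((B+2*((n+1:ℕ):ℚ))/(B+((n+1:ℕ):ℚ))) := by unfold Rn; rw [prod_range_succ]
    have e4 : Rn (B+2) n = Rn B (n+1) * (B+1) / (B+n+1) := by rw [eq_div_iff hbn]; exact hs
    rw [e3, e4]
    push_cast
    have h5 : B+((n:ℚ)+1) ≠ 0 := by intro h; apply hbn; linarith
    field_simp
    ring

/-- `C(m,2k)(1-X)^{m-2k}X^{2k}` expanded -/
theorem exp1 (m k : ℕ) (hk : 2*k ≤ m) : (((m.choose (2*k) : ℕ) : ℚ[X])) * ((1-X)^(m-2*k) * X^(2*k)) =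
    ∑ n ∈ range (m+1), (((m.choose n * n.choose (2*k) : ℕ)) : ℚ[X]) * (-X)^n := by
  have h1 : ∑ n ∈ range (m+1), (((m.choose n * n.choose (2*k) : ℕ)) : ℚ[X]) * (-X)^n =
      ∑ l ∈ range (m-2*k+1), (((m.choose (2*k+l) * (2*k+l).choose (2*k) : ℕ)) : ℚ[X]) * (-X)^(2*k+l) := by
    rw [show m+1 = 2*k+(m-2*k+1) by omega, sum_range_add]
    rw [sum_eq_zero (fun n hn => by rw [Nat.choose_eq_zero_of_lt (mem_range.1 hn)]; simp), zero_add]
  rw [h1]
  have h2 : (1-X : ℚ[X])^(m-2*k) = ∑ l ∈ range (m-2*k+1), (-X)^l * (((m-2*k).choose l : ℕ) : ℚ[X]) := by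
    have := add_pow (-X : ℚ[X]) 1 (m-2*k)
    rw [show (-X : ℚ[X]) + 1 = 1 - X by ring] at this
    rw [this]
    refine sum_congr rfl fun l _ => ?_
    rw [one_pow, mul_one]
  rw [h2, sum_mul, mul_sum]
  refine sum_congr rfl fun l hl => ?_
  rw [mem_range] at hl
  have h3 : m.choose (2*k+l) * (2*k+l).choose (2*k) = m.choose (2*k) * (m-2*k).choose l := by
    have := Nat.choose_mul (n := m) (k := 2*k+l) (s := 2*k) (by omega)
    rw [this, show 2*k+l-2*k = l by omega]
  rw [h3, pow_add, pow_mul (-X : ℚ[X])]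
  push_cast
  rw [neg_sq, ← pow_mul]
  ring

/-- the quadratic transformation as a polynomial identity -/
theorem quadT (m : ℕ) (B : ℚ) (hB : ∀ j : ℕ, j < m → B + j ≠ 0) :
    ∑ n ∈ range (m+1), C (((m.choose n : ℕ) : ℚ) * Rn B n) * (-X)^n =
    ∑ k ∈ range (m/2+1), C (((m.choose (2*k) : ℕ) : ℚ) * rho B k) * ((1-X)^(m-2*k) * X^(2*k)) := by
  have h1 : ∀ k ∈ range (m/2+1), C (((m.choose (2*k) : ℕ) : ℚ) * rho B k) * ((1-X)^(m-2*k) * X^(2*k)) =
      ∑ n ∈ range (m+1), C (((m.choose n : ℕ) : ℚ) * (((n.choose (2*k) : ℕ) : ℚ) * rho B k)) * (-X)^n := by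
    intro k hk
    rw [mem_range] at hk
    have := exp1 m k (by omega)
    have e : C (((m.choose (2*k) : ℕ) : ℚ) * rho B k) * ((1-X)^(m-2*k) * X^(2*k)) =
        C (rho B k) * ((((m.choose (2*k) : ℕ) : ℚ[X])) * ((1-X)^(m-2*k) * X^(2*k))) := by
      rw [C_mul]
      have : (C ((m.choose (2*k) : ℕ) : ℚ) : ℚ[X]) = ((m.choose (2*k) : ℕ) : ℚ[X]) := by simp
      rw [this]; ring
    rw [e, this, mul_sum]
    refine sum_congr rfl fun n _ => ?_
    rw [C_mul, C_mul]
    have a1 : (C ((m.choose n : ℕ) : ℚ) : ℚ[X]) = ((m.choose n : ℕ) : ℚ[X]) := by simp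
    have a2 : (C ((n.choose (2*k) : ℕ) : ℚ) : ℚ[X]) = ((n.choose (2*k) : ℕ) : ℚ[X]) := by simp
    rw [a1, a2]
    push_cast
    ring
  rw [sum_congr rfl h1, sum_comm]
  refine sum_congr rfl fun n hn => ?_
  rw [mem_range] at hn
  rw [← sum_mul, ← map_sum, ← mul_sum]
  congr 3
  rw [← gauss n B (fun j hj => hB j (by omega))]
  have e1 : ∑ k ∈ range (n+1), ((n.choose (2*k) : ℕ) : ℚ) * rho B k = ∑ k ∈ range (m+1), ((n.choose (2*k) : ℕ) : ℚ) * rho B k := by
    refine sum_subset (range_mono (by omega)) fun k _ hk => ?_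
    rw [mem_range] at hk
    rw [Nat.choose_eq_zero_of_lt (by omega)]; simp
  have e2 : ∑ k ∈ range (m/2+1), ((n.choose (2*k) : ℕ) : ℚ) * rho B k = ∑ k ∈ range (m+1), ((n.choose (2*k) : ℕ) : ℚ) * rho B k := by
    refine sum_subset (range_mono (by omega)) fun k _ hk => ?_
    rw [mem_range] at hk
    rw [Nat.choose_eq_zero_of_lt (by omega)]; simp
  rw [e1, e2]

/-- Pfaff's transformation as a polynomial identity -/
theorem pfaff (h : ℕ) : ∑ n ∈ range (h+1), (((h.choose n * (h+n).choose n : ℕ)) : ℚ[X]) * (-X)^n =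
    ∑ k ∈ range (h+1), (((h.choose k)^2 : ℕ) : ℚ[X]) * ((-X)^k * (1-X)^(h-k)) := by
  have h1 : ∀ k ∈ range (h+1), (((h.choose k)^2 : ℕ) : ℚ[X]) * ((-X)^k * (1-X)^(h-k)) =
      ∑ n ∈ range (h+1), (((h.choose n * (h.choose k * n.choose k) : ℕ)) : ℚ[X]) * (-X)^n := by
    intro k hk
    rw [mem_range] at hk
    have h2 : ∑ n ∈ range (h+1), (((h.choose n * (h.choose k * n.choose k) : ℕ)) : ℚ[X]) * (-X)^n =
        ∑ l ∈ range (h-k+1), (((h.choose (k+l) * (h.choose k * (k+l).choose k) : ℕ)) : ℚ[X]) * (-X)^(k+l) := by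
      have : range (h+1) = range (k+(h-k+1)) := by congr 1; omega
      rw [this, sum_range_add]
      rw [sum_eq_zero (fun n hn => by rw [Nat.choose_eq_zero_of_lt (mem_range.1 hn)]; simp), zero_add]
    have h3 : (1-X : ℚ[X])^(h-k) = ∑ l ∈ range (h-k+1), (-X)^l * (((h-k).choose l : ℕ) : ℚ[X]) := by
      have := add_pow (-X : ℚ[X]) 1 (h-k)
      rw [show (-X : ℚ[X]) + 1 = 1 - X by ring] at this
      rw [this]
      refine sum_congr rfl fun l _ => ?_
      rw [one_pow, mul_one]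
    rw [h2, h3, mul_sum, mul_sum]
    refine sum_congr rfl fun l hl => ?_
    rw [mem_range] at hl
    have h4 : h.choose (k+l) * (k+l).choose k = h.choose k * (h-k).choose l := by
      have := Nat.choose_mul (n := h) (k := k+l) (s := k) (by omega)
      rw [this, show k+l-k = l by omega]
    have h5 : h.choose (k+l) * (h.choose k * (k+l).choose k) = (h.choose k)^2 * (h-k).choose l := by
      calc h.choose (k+l) * (h.choose k * (k+l).choose k) = h.choose k * (h.choose (k+l) * (k+l).choose k) := by ring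
        _ = _ := by rw [h4]; ring
    rw [h5, pow_add]
    push_cast
    ring
  rw [sum_congr rfl h1, sum_comm]
  refine sum_congr rfl fun n hn => ?_
  rw [mem_range] at hn
  rw [← sum_mul]
  congr 1
  rw [← Nat.cast_sum]
  congr 1
  rw [← mul_sum]
  congr 1
  have h6 := Nat.add_choose_eq h n n
  rw [h6, Finset.Nat.sum_antidiagonal_eq_sum_range_succ_mk]
  have e1 : ∑ k ∈ range (h+1), h.choose k * n.choose k = ∑ k ∈ range (n+1), h.choose k * n.choose k := by
    symm
    refine sum_subset (range_mono (by omega)) fun k _ hk => ?_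
    rw [mem_range] at hk
    rw [Nat.choose_eq_zero_of_lt (show n < k by omega)]; simp
  rw [e1]
  refine sum_congr rfl fun k hk => ?_
  rw [mem_range] at hk
  rw [Nat.choose_symm (show k ≤ n by omega)]

end Pool.Agent.N926.Qd
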