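import Pool.Agent.N926.Qd.A
import Pool.Agent.N926.Tri.E
import Pool.Agent.N926.F37.G

/-! evaluation in `ℚ(√3)` -/

set_option autoImplicit false
set_option linter.unusedVariables false
set_option linter.unusedSectionVars false

namespace Pool.Agent.N926.Qd

open Finset Polynomial Pool.Agent.N926.F37 Pool.Agent.N926.Tri

abbrev R3 := QuadraticAlgebra ℚ 3 0

/-- coefficients -/
def cc3 (m n : ℕ) : ℚ := ((m.choose n : ℕ) : ℚ) * Rn ((1-4*(m:ℚ))/3) n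

theorem tm_rho (m : ℕ) : ∀ k : ℕ, tm (m:ℚ) k = ((m.choose (2*k) : ℕ) : ℚ) * rho ((1-4*(m:ℚ))/3) k * (4/3)^k
  | 0 => by simp [tm_zero, rho]
  | (k+1) => by
    rw [tm_succ, tm_rho m k]
    have h1 := ch_up m (2*k)
    have h2 := ch_up m (2*k+1)
    push_cast at h1 h2
    have e1 : ((m.choose (2*(k+1)) : ℕ) : ℚ) = ((m:ℚ)-2*k)*((m:ℚ)-2*k-1) * ((m.choose (2*k) : ℕ) : ℚ) / ((2*k+2)*(2*k+1)) := by
      rw [eq_div_iff (by positivity), show 2*(k+1) = 2*k+1+1 by ring]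
      linear_combination (2*(k:ℚ)+1) * h2 + ((m:ℚ)-2*k-1) * h1
    have e2 : rho ((1-4*(m:ℚ))/3) (k+1) = rho ((1-4*(m:ℚ))/3) k * ((2*k+1)/((1-4*(m:ℚ))/3+1+2*k)) := by
      unfold rho; rw [prod_range_succ]
    have e3 : (1-4*(m:ℚ))/3+1+2*k = 2/3*(2-2*m+3*k) := by ring
    rw [e1, e2, e3, pow_succ]
    by_cases h0 : 2-2*(m:ℚ)+3*k = 0
    · rw [h0]; simp
    · push_cast
      field_simp
      ring

section
variable (w v : R3) (hv : (1-w)*v = 1)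
include hv

theorem quadE' (m : ℕ) (hm : ∀ j : ℕ, j < m → (1-4*(m:ℚ))/3 + j ≠ 0) (hz : (w*v)^2 = algebraMap ℚ R3 (4/3)) :
    ∑ n ∈ range (m+1), algebraMap ℚ R3 (cc3 m n) * (-w)^n = (1-w)^m * algebraMap ℚ R3 (FF m) := by
  have h1 := congrArg (aeval w) (quadT m _ hm)
  simp only [map_sum, map_mul, aeval_C, map_pow, map_neg, aeval_X, map_sub, map_one] at h1
  unfold cc3
  simp only [map_mul]
  rw [h1]
  unfold FF
  rw [map_sum, mul_sum]
  refine sum_congr rfl fun k hk => ?_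
  rw [mem_range] at hk
  have e1 : (1-w)^(m-2*k) = (1-w)^m * v^(2*k) := by
    have : m = (m-2*k) + 2*k := by omega
    conv_rhs => rw [this, pow_add, mul_assoc, ← mul_pow, hv, one_pow, mul_one]
  rw [e1, tm_rho, map_mul, map_mul, map_pow, ← hz, ← pow_mul]
  rw [mul_pow w v]
  ring

theorem quadD' (m : ℕ) (hm : ∀ j : ℕ, j < m → (1-4*(m:ℚ))/3 + j ≠ 0) (hz : (w*v)^2 = algebraMap ℚ R3 (4/3)) :
    ∑ n ∈ range (m+1), algebraMap ℚ R3 (n * cc3 m n) * (-w)^n =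
      (1-w)^m * (algebraMap ℚ R3 (2*(m*FF m - LL m)) - algebraMap ℚ R3 (2*LL m - m*FF m) * (w*v)) := by
  have h0 := congrArg (fun f : ℚ[X] => X * derivative f) (quadT m _ hm)
  simp only [derivative_sum, mul_sum] at h0
  have e1 : ∀ n ∈ range (m+1), X * derivative (C (((m.choose n : ℕ) : ℚ) * Rn ((1-4*(m:ℚ))/3) n) * (-X)^n) = C (n * cc3 m n) * (-X : ℚ[X])^n := by
    intro n _
    rw [show ((m.choose n : ℕ) : ℚ) * Rn ((1-4*(m:ℚ))/3) n = cc3 m n from rfl, derivative_C_mul, C_mul]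
    rcases n with _ | n
    · simp
    · rw [derivative_pow]
      simp only [derivative_neg, derivative_X, Nat.add_sub_cancel]
      rw [pow_succ]
      ring
  have e2 : ∀ k ∈ range (m/2+1), X * derivative (C (((m.choose (2*k) : ℕ) : ℚ) * rho ((1-4*(m:ℚ))/3) k) * ((1-X)^(m-2*k) * X^(2*k))) =
      C (((m.choose (2*k) : ℕ) : ℚ) * rho ((1-4*(m:ℚ))/3) k) * (C ((2*k:ℕ):ℚ) * ((1-X)^(m-2*k) * X^(2*k)) - C ((m-2*k:ℕ):ℚ) * ((1-X)^(m-2*k-1) * X^(2*k+1)) : ℚ[X]) := by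
    intro k _
    rw [derivative_C_mul, derivative_mul, derivative_pow, derivative_pow]
    simp only [derivative_sub, derivative_one, derivative_X]
    rcases k with _ | k
    · simp
      ring
    · rw [show 2*(k+1) - 1 = 2*k+1 by omega]
      rw [show 2*(k+1) = 2*k+1+1 by ring, pow_succ X (2*k+1), pow_succ X (2*k+1+1), pow_succ X (2*k+1)]
      ring
  rw [sum_congr rfl e1, sum_congr rfl e2] at h0
  have h1 := congrArg (aeval w) h0
  simp only [map_sum, map_mul, aeval_C, map_pow, map_neg, aeval_X, map_sub, map_one] at h1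
  have h2 : ∑ n ∈ range (m+1), algebraMap ℚ R3 (n * cc3 m n) * (-w)^n =
      ∑ n ∈ range (m+1), algebraMap ℚ R3 (n:ℚ) * algebraMap ℚ R3 (cc3 m n) * (-w)^n := by
    refine sum_congr rfl fun n _ => ?_
    rw [map_mul]
  rw [h2, h1]
  have f1 : 2*((m:ℚ)*FF m - LL m) = ∑ k ∈ range (m/2+1), (2*(k:ℚ)) * tm m k := by
    unfold FF LL
    rw [mul_sum, ← sum_sub_distrib, mul_sum]
    exact sum_congr rfl fun k _ => by ring
  have f2 : 2*LL m - m*FF m = ∑ k ∈ range (m/2+1), ((m:ℚ)-2*k) * tm m k := by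
    unfold FF LL
    rw [mul_sum, mul_sum, ← sum_sub_distrib]
    exact sum_congr rfl fun k _ => by ring
  rw [f1, f2, map_sum, map_sum, sum_mul, ← sum_sub_distrib, mul_sum]
  refine sum_congr rfl fun k hk => ?_
  rw [mem_range] at hk
  have k1 : (1-w)^(m-2*k) = (1-w)^m * v^(2*k) := by
    have : m = (m-2*k) + 2*k := by omega
    conv_rhs => rw [this, pow_add, mul_assoc, ← mul_pow, hv, one_pow, mul_one]
  have k2 : algebraMap ℚ R3 ((m-2*k:ℕ):ℚ) * (1-w)^(m-2*k-1) = algebraMap ℚ R3 ((m-2*k:ℕ):ℚ) * ((1-w)^m * v^(2*k) * v) := by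
    rcases Nat.eq_zero_or_pos (m-2*k) with h | h
    · rw [h]; simp
    · rw [← k1]
      congr 1
      have : m - 2*k = (m-2*k-1)+1 := by omega
      conv_rhs => rw [this, pow_succ, mul_assoc, hv, mul_one]
  have k3 : ((m-2*k:ℕ):ℚ) = (m:ℚ) - 2*k := by rw [Nat.cast_sub (by omega)]; push_cast; ring
  have k4 : algebraMap ℚ R3 (tm m k) = algebraMap ℚ R3 ((m.choose (2*k) : ℕ) : ℚ) * algebraMap ℚ R3 (rho ((1-4*(m:ℚ))/3) k) * (w*v)^(2*k) := by
    rw [tm_rho, map_mul, map_mul, map_pow, ← hz, ← pow_mul]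
  calc algebraMap ℚ R3 ((m.choose (2*k) : ℕ) : ℚ) * algebraMap ℚ R3 (rho ((1-4*(m:ℚ))/3) k) *
      (algebraMap ℚ R3 ((2*k:ℕ):ℚ) * ((1-w)^(m-2*k) * w^(2*k)) - algebraMap ℚ R3 ((m-2*k:ℕ):ℚ) * ((1-w)^(m-2*k-1) * w^(2*k+1)))
      = algebraMap ℚ R3 ((m.choose (2*k) : ℕ) : ℚ) * algebraMap ℚ R3 (rho ((1-4*(m:ℚ))/3) k) *
      (algebraMap ℚ R3 ((2*k:ℕ):ℚ) * ((1-w)^(m-2*k) * w^(2*k)) - (algebraMap ℚ R3 ((m-2*k:ℕ):ℚ) * (1-w)^(m-2*k-1)) * w^(2*k+1)) := by ring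
    _ = algebraMap ℚ R3 ((m.choose (2*k) : ℕ) : ℚ) * algebraMap ℚ R3 (rho ((1-4*(m:ℚ))/3) k) *
      (algebraMap ℚ R3 ((2*k:ℕ):ℚ) * (((1-w)^m * v^(2*k)) * w^(2*k)) - (algebraMap ℚ R3 ((m-2*k:ℕ):ℚ) * ((1-w)^m * v^(2*k) * v)) * w^(2*k+1)) := by rw [k2, k1]
    _ = (1-w)^m * (algebraMap ℚ R3 (2*(k:ℚ) * tm m k) - algebraMap ℚ R3 (((m:ℚ)-2*k) * tm m k) * (w*v)) := by
      rw [map_mul _ (2*(k:ℚ)), map_mul _ ((m:ℚ)-2*k), k4, k3, mul_pow w v]
      push_cast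
      ring

end

/-- Pfaff evaluated -/
theorem pfE (h : ℕ) (x u : R3) (hu : (1-x)*u = 1) :
    ∑ n ∈ range (h+1), algebraMap ℚ R3 ((h.choose n * (h+n).choose n : ℕ) : ℚ) * (-x)^n =
      (1-x)^h * ∑ k ∈ range (h+1), algebraMap ℚ R3 (((h.choose k)^2 : ℕ) : ℚ) * (-(x*u))^k := by
  have h1 := congrArg (aeval x) (pfaff h)
  simp only [map_sum, map_mul, map_natCast, map_pow, map_neg, aeval_X, map_sub, map_one] at h1
  simp only [map_natCast]
  rw [h1, mul_sum]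
  refine sum_congr rfl fun k hk => ?_
  rw [mem_range] at hk
  have k1 : (1-x)^(h-k) = (1-x)^h * u^k := by
    have : h = (h-k) + k := by omega
    conv_rhs => rw [this, pow_add, mul_assoc, ← mul_pow, hu, one_pow, mul_one]
  rw [k1, show -(x*u) = (-x)*u by ring, mul_pow (-x) u]
  ring

theorem pfD (h : ℕ) (x u : R3) (hu : (1-x)*u = 1) :
    ∑ n ∈ range (h+1), algebraMap ℚ R3 (n * ((h.choose n * (h+n).choose n : ℕ) : ℚ)) * (-x)^n =
      (1-x)^h * (u * ∑ k ∈ range (h+1), algebraMap ℚ R3 (k * (((h.choose k)^2 : ℕ) : ℚ)) * (-(x*u))^k -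
        algebraMap ℚ R3 h * x * u * ∑ k ∈ range (h+1), algebraMap ℚ R3 (((h.choose k)^2 : ℕ) : ℚ) * (-(x*u))^k) := by
  have h0 := congrArg (fun f : ℚ[X] => X * derivative f) (pfaff h)
  simp only [derivative_sum, mul_sum] at h0
  have e1 : ∀ n ∈ range (h+1), X * derivative ((((h.choose n * (h+n).choose n : ℕ)) : ℚ[X]) * (-X)^n) = C (n * ((h.choose n * (h+n).choose n : ℕ) : ℚ)) * (-X : ℚ[X])^n := by
    intro n _
    have : (((h.choose n * (h+n).choose n : ℕ)) : ℚ[X]) = C ((h.choose n * (h+n).choose n : ℕ) : ℚ) := by simp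
    rw [this, derivative_C_mul, C_mul]
    rcases n with _ | n
    · simp
    · rw [derivative_pow]
      simp only [derivative_neg, derivative_X, Nat.add_sub_cancel]
      rw [pow_succ]
      ring
  have e2 : ∀ k ∈ range (h+1), X * derivative ((((h.choose k)^2 : ℕ) : ℚ[X]) * ((-X)^k * (1-X)^(h-k))) =
      C (((h.choose k)^2 : ℕ) : ℚ) * (C (k:ℚ) * ((-X)^k * (1-X)^(h-k)) - C ((h-k:ℕ):ℚ) * (X * (-X)^k * (1-X)^(h-k-1)) : ℚ[X]) := by
    intro k _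
    have : (((h.choose k)^2 : ℕ) : ℚ[X]) = C (((h.choose k)^2 : ℕ) : ℚ) := by simp
    rw [this, derivative_C_mul, derivative_mul, derivative_pow, derivative_pow]
    simp only [derivative_sub, derivative_one, derivative_X, derivative_neg]
    rcases k with _ | k
    · simp
      ring
    · rw [Nat.add_sub_cancel, pow_succ (-X) k]
      ring
  rw [sum_congr rfl e1, sum_congr rfl e2] at h0
  have h1 := congrArg (aeval x) h0
  simp only [map_sum, map_mul, aeval_C, map_pow, map_neg, aeval_X, map_sub, map_one] at h1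
  have h2 : ∑ n ∈ range (h+1), algebraMap ℚ R3 (n * ((h.choose n * (h+n).choose n : ℕ) : ℚ)) * (-x)^n =
      ∑ n ∈ range (h+1), algebraMap ℚ R3 (n:ℚ) * algebraMap ℚ R3 ((h.choose n * (h+n).choose n : ℕ) : ℚ) * (-x)^n := by
    refine sum_congr rfl fun n _ => ?_
    rw [map_mul]
  rw [h2, h1, mul_sum, mul_sum, ← sum_sub_distrib, mul_sum]
  refine sum_congr rfl fun k hk => ?_
  rw [mem_range] at hk
  have k1 : (1-x)^(h-k) = (1-x)^h * u^k := by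
    have : h = (h-k) + k := by omega
    conv_rhs => rw [this, pow_add, mul_assoc, ← mul_pow, hu, one_pow, mul_one]
  have k2 : algebraMap ℚ R3 ((h-k:ℕ):ℚ) * (1-x)^(h-k-1) = algebraMap ℚ R3 ((h-k:ℕ):ℚ) * ((1-x)^h * u^k * u) := by
    rcases Nat.eq_zero_or_pos (h-k) with hz | hz
    · rw [hz]; simp
    · rw [← k1]
      congr 1
      have : h - k = (h-k-1)+1 := by omega
      conv_rhs => rw [this, pow_succ, mul_assoc, hu, mul_one]
  have k3 : ((h-k:ℕ):ℚ) = (h:ℚ) - k := by rw [Nat.cast_sub (by omega)]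
  have k5 : 1 + x*u = u := by linear_combination (-1:R3) * hu
  calc algebraMap ℚ R3 (((h.choose k)^2 : ℕ) : ℚ) * (algebraMap ℚ R3 (k:ℚ) * ((-x)^k * (1-x)^(h-k)) - algebraMap ℚ R3 ((h-k:ℕ):ℚ) * (x * (-x)^k * (1-x)^(h-k-1)))
      = algebraMap ℚ R3 (((h.choose k)^2 : ℕ) : ℚ) * (algebraMap ℚ R3 (k:ℚ) * ((-x)^k * (1-x)^(h-k)) - (algebraMap ℚ R3 ((h-k:ℕ):ℚ) * (1-x)^(h-k-1)) * (x * (-x)^k)) := by ring
    _ = algebraMap ℚ R3 (((h.choose k)^2 : ℕ) : ℚ) * (algebraMap ℚ R3 (k:ℚ) * ((-x)^k * ((1-x)^h * u^k)) - (algebraMap ℚ R3 ((h:ℚ)-k) * ((1-x)^h * u^k * u)) * (x * (-x)^k)) := by rw [k2, k1, k3]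
    _ = (1-x)^h * ((1+x*u) * (algebraMap ℚ R3 (k * (((h.choose k)^2 : ℕ) : ℚ)) * (-(x*u))^k) - algebraMap ℚ R3 h * x * u * (algebraMap ℚ R3 (((h.choose k)^2 : ℕ) : ℚ) * (-(x*u))^k)) := by
      rw [show -(x*u) = (-x)*u by ring, mul_pow (-x) u, map_mul, map_sub]
      ring
    _ = _ := by rw [k5]

end Pool.Agent.N926.Qd
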