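import Pool.Agent.N926.Qd.B
import Pool.Agent.N926.Tri.G

/-! coefficient congruences -/

set_option autoImplicit false
set_option linter.unusedVariables false
set_option linter.unusedSectionVars false

namespace Pool.Agent.N926.Qd

open Finset Pool.Agent.N926.Sup2 Pool.Agent.N926.Sup Pool.Agent.N926.F54 Pool.Agent.N926.F37 Pool.Agent.N926.Tri Pool.Agent.N926.Fib

def tt (k : ℕ) : ℚ := ∏ j ∈ range k, ((2*(j:ℚ)+1)/(2*((j:ℚ)+1)))^2
def UU (p : ℕ) (c : ℚ) (k : ℕ) : ℚ := ∏ j ∈ range k, (1 - c*p/(2*(j:ℚ)+1))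
def Oh (k : ℕ) : ℚ := ∑ j ∈ range k, 1/(2*(j:ℚ)+1)
/-- coefficient of `x^n` -/
def gg3 (m n : ℕ) : ℚ := cc3 m n * (-1/2)^n

theorem tt_eq (k : ℕ) : tt k = (((2*k).choose k : ℕ) : ℚ)^2 / 16^k := by
  induction k with
  | zero => simp [tt]
  | succ k ih =>
    unfold tt at ih ⊢
    rw [prod_range_succ, ih]
    have h2 := cb_up k
    have hk : (k:ℚ)+1 ≠ 0 := by positivity
    have e2 : (((2*(k+1)).choose (k+1) : ℕ) : ℚ) = 2*(2*(k:ℚ)+1) * (((2*k).choose k : ℕ) : ℚ) / ((k:ℚ)+1) := by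
      rw [eq_div_iff hk]; linarith
    rw [e2, pow_succ]
    field_simp
    ring

theorem gg3_prod (m n : ℕ) : gg3 m n = ∏ j ∈ range n, (-(((m:ℚ)-j)*((1-4*(m:ℚ))/3+2*j))/(2*((j:ℚ)+1)*((1-4*(m:ℚ))/3+j))) := by
  induction n with
  | zero => simp [gg3, cc3, Rn]
  | succ n ih =>
    rw [prod_range_succ, ← ih]
    unfold gg3 cc3 Rn
    rw [prod_range_succ, pow_succ]
    have h1 := ch_up m n
    have hn : (n:ℚ)+1 ≠ 0 := by positivity
    have e1 : ((m.choose (n+1) : ℕ) : ℚ) = ((m:ℚ)-n) * ((m.choose n : ℕ) : ℚ) / ((n:ℚ)+1) := by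
      rw [eq_div_iff hn]; linarith
    rw [e1]
    by_cases h0 : (1-4*(m:ℚ))/3+n = 0
    · rw [h0]; simp
    · field_simp

theorem pb_prod (h n : ℕ) : ((h.choose n : ℕ) : ℚ) = ∏ j ∈ range n, (((h:ℚ)-j)/((j:ℚ)+1)) := by
  induction n with
  | zero => simp
  | succ n ih =>
    rw [prod_range_succ, ← ih]
    have h1 := ch_up h n
    have hn : (n:ℚ)+1 ≠ 0 := by positivity
    field_simp
    linarith

section
variable {p : ℕ} [hp : Fact p.Prime]

theorem odd_unit {h : ℕ} (hh : p = 2*h+1) {j : ℕ} (hj : j < h) : padicValRat p (2*(j:ℚ)+1) = 0 := by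
  have := unit_nat (p := p) (n := 2*j+1) (Nat.not_dvd_of_pos_of_lt (by omega) (by omega))
  push_cast at this
  exact this

theorem UU_LR {c : ℚ} (hc : Dv p 0 c) {h : ℕ} (hh : p = 2*h+1) {k : ℕ} (hk : k ≤ h) : LR p (UU p c k) (-c * Oh k) := by
  have hu : ∀ l < k, Dv p 0 (1/(2*(l:ℚ)+1)) := fun l hl => Dv.one.div_unit (odd_unit hh (by omega))
  have h1 := Dv.prod2 (p := p) (n := 1) (by norm_num) (range k) (fun l => -(c*p/(2*(l:ℚ)+1))) (by
    intro l hl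
    rw [mem_range] at hl
    have a := (hc.mul0' (Dv.p1 (p := p))).mul0 (hu l hl)
    have e : c * p * (1/(2*(l:ℚ)+1)) = c*p/(2*(l:ℚ)+1) := by ring
    rw [e] at a
    exact a.neg)
  constructor
  · unfold Oh
    have e : ∑ l ∈ range k, -(c*p/(2*(l:ℚ)+1)) = p * (-c * ∑ l ∈ range k, 1/(2*(l:ℚ)+1)) := by
      rw [mul_sum, mul_sum]
      refine sum_congr rfl fun l _ => ?_
      ring
    rw [e] at h1
    unfold UU
    simpa [sub_eq_add_neg] using h1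
  · exact hc.neg.mul0 (Dv.sum _ _ fun l hl => hu l (mem_range.1 hl))

theorem tt_int (h2 : p ≠ 2) (k : ℕ) : Dv p 0 (tt k) := by
  rw [tt_eq]
  have : (16:ℚ)^k = 2^(4*k) := by rw [pow_mul]; norm_num
  rw [this]
  have := (Dv.nat (p := p) (((2*k).choose k)^2)).div_unit (two_pow_unit h2 (4*k))
  push_cast at this
  exact this

theorem tt_van (h2 : p ≠ 2) {h : ℕ} (hh : p = 2*h+1) {k : ℕ} (hk : h < k) (hkp : k < p) : Dv p 2 (tt k) := by
  rw [tt_eq]
  have hd : p ∣ (2*k).choose k := hp.out.dvd_choose hkp (by omega) (by omega)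
  have h1 := dv_of_nat_dvd hd
  have : (16:ℚ)^k = 2^(4*k) := by rw [pow_mul]; norm_num
  rw [this]
  have h3 := (h1.mul h1).div_unit (two_pow_unit h2 (4*k))
  refine Dv_eq ?_ h3
  ring

/-- Pfaff's left side -/
theorem pa_cong (h2 : p ≠ 2) {h : ℕ} (hh : p = 2*h+1) {k : ℕ} (hk : k ≤ h) :
    Dv p 2 (((h.choose k * (h+k).choose k : ℕ) : ℚ) * (-1)^k - tt k) := by
  have h1 := cb_cong h2 hh hk
  have h3 : (((h+k).choose k : ℕ) : ℚ) * ((h.choose k : ℕ) : ℚ) = (((h+k).choose (2*k) : ℕ) : ℚ) * (((2*k).choose k : ℕ) : ℚ) := by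
    rw [← dn_mul hk]; rfl
  rw [tt_eq]
  refine Dv_eq ?_ ((h1.mul0 (Dv.nat (p := p) ((2*k).choose k))).neg)
  push_cast
  have h4 : ((h.choose k : ℕ) : ℚ) * (((h+k).choose k : ℕ) : ℚ) = (((h+k).choose (2*k) : ℕ) : ℚ) * (((2*k).choose k : ℕ) : ℚ) := by
    rw [← h3]; ring
  rw [h4]
  ring

theorem pb_eq {h : ℕ} (hh : p = 2*h+1) (k : ℕ) (hk : k ≤ h) : ((h.choose k : ℕ) : ℚ)^2 = tt k * UU p 1 k ^ 2 := by
  rw [pb_prod]
  unfold tt UU
  rw [← prod_pow, ← prod_pow, ← prod_mul_distrib]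
  refine prod_congr rfl fun j _ => ?_
  have hpq : (p:ℚ) = 2*h+1 := by rw [hh]; push_cast; ring
  rw [hpq]
  have h3 : 2*(j:ℚ)+1 ≠ 0 := by positivity
  field_simp
  ring

theorem g1_eq {h : ℕ} (hh : p = 2*h+1) (k : ℕ) (hk : k ≤ h) : gg3 h k = tt k * UU p 1 k * UU p (2/3) k / PR p (2/3) 0 k := by
  rw [gg3_prod]
  unfold tt UU PR
  rw [← prod_mul_distrib, ← prod_mul_distrib, ← prod_div_distrib]
  refine prod_congr rfl fun j _ => ?_
  have hpq : (p:ℚ) = 2*h+1 := by rw [hh]; push_cast; ring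
  rw [hpq]
  have h3 : 2*(j:ℚ)+1 ≠ 0 := by positivity
  have h5 : ((0:ℕ):ℚ)+j+1 ≠ 0 := by positivity
  by_cases h0 : (1-4*(h:ℚ))/3+j = 0
  · have e1 : 1 - 2/3*(2*(h:ℚ)+1)/(((0:ℕ):ℚ)+j+1) = 0 := by
      push_cast
      have h6 : (0:ℚ)+j+1 ≠ 0 := by positivity
      field_simp
      linarith
    rw [e1, h0]; simp
  · have e1 : 1 - 2/3*(2*(h:ℚ)+1)/(((0:ℕ):ℚ)+j+1) = ((1-4*(h:ℚ))/3+j)/((j:ℚ)+1) := by
      push_cast
      have h6 : (0:ℚ)+j+1 ≠ 0 := by positivity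
      field_simp
      ring
    rw [e1]
    field_simp
    ring

theorem g2_eq {h : ℕ} (hh : p = 2*h+1) (k : ℕ) : gg3 (h+p) k = tt k * UU p 3 k * UU p 2 k / PR p 2 0 k := by
  rw [gg3_prod]
  unfold tt UU PR
  rw [← prod_mul_distrib, ← prod_mul_distrib, ← prod_div_distrib]
  refine prod_congr rfl fun j _ => ?_
  have hpq : (p:ℚ) = 2*h+1 := by rw [hh]; push_cast; ring
  push_cast
  rw [hpq]
  have h3 : 2*(j:ℚ)+1 ≠ 0 := by positivity
  have h5 : (0:ℚ)+j+1 ≠ 0 := by positivity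
  by_cases h0 : (1-4*((h:ℚ)+(2*h+1)))/3+j = 0
  · have e1 : 1 - 2*(2*(h:ℚ)+1)/((0:ℚ)+j+1) = 0 := by
      field_simp
      linarith
    rw [e1, h0]; simp
  · have e1 : 1 - 2*(2*(h:ℚ)+1)/((0:ℚ)+j+1) = ((1-4*((h:ℚ)+(2*h+1)))/3+j)/((j:ℚ)+1) := by
      field_simp
      ring
    rw [e1]
    field_simp
    ring

theorem dlr {a w v : ℚ} (h : LR p a w) : Dv p 2 (a - (1 + p*w)) := by
  have := h.1
  refine Dv_eq ?_ this
  ring

theorem g_cong (p3 : 3 < p) {h : ℕ} (hh : p = 2*h+1) {k : ℕ} (hk : k ≤ h) :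
    Dv p 2 (gg3 (h+p) k - 3 * gg3 h k + 2 * tt k) := by
  have h2 : p ≠ 2 := by omega
  have hu3 : padicValRat p (3:ℚ) = 0 := by
    have := unit3 (p := p) p3 1
    rwa [pow_one] at this
  have c23 : Dv p 0 (2/3:ℚ) := by
    have := (Dv.nat (p := p) 2).div_unit hu3
    push_cast at this; exact this
  have c2 : Dv p 0 (2:ℚ) := by have := Dv.nat (p := p) 2; push_cast at this; exact this
  have c3 : Dv p 0 (3:ℚ) := by have := Dv.nat (p := p) 3; push_cast at this; exact this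
  have L1 := ((UU_LR (p := p) Dv.one hh hk).mul (UU_LR c23 hh hk)).div (PR_LR (p := p) c23 (m := 0) (k := k) (by omega))
  have L2 := ((UU_LR (p := p) c3 hh hk).mul (UU_LR c2 hh hk)).div (PR_LR (p := p) c2 (m := 0) (k := k) (by omega))
  rw [g1_eq hh k hk, g2_eq hh k]
  have d1 := (L1.1.mul0 (Dv.int (p := p) 3)).mul0 (tt_int h2 k)
  have d2 := L2.1.mul0 (tt_int h2 k)
  refine Dv_eq ?_ (d2.sub d1)
  push_cast
  ring

theorem fac_int {h : ℕ} (hh : p = 2*h+1) (c : ℤ) {j : ℕ} (hj : j < p) : Dv p 0 (1 - (c:ℚ)*p/(2*(j:ℚ)+1)) := by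
  by_cases hjh : j = h
  · have hpq : (p:ℚ) = 2*h+1 := by rw [hh]; push_cast; ring
    rw [hjh, ← hpq]
    have hp0 : (p:ℚ) ≠ 0 := by exact_mod_cast hp.out.ne_zero
    rw [mul_div_assoc, div_self hp0, mul_one]
    have := Dv.int (p := p) (1-c)
    push_cast at this
    exact this
  · have hu : padicValRat p (2*(j:ℚ)+1) = 0 := by
      have := unit_nat (p := p) (n := 2*j+1) (by
        intro hd
        obtain ⟨d, hd⟩ := hd
        have c1 : d < 2 := by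
          by_contra hcc
          have : p * 2 ≤ p * d := Nat.mul_le_mul_left _ (by omega)
          omega
        interval_cases d <;> omega)
      push_cast at this
      exact this
    have := Dv.one.sub ((Dv.int (p := p) (c*p)).div_unit hu)
    push_cast at this
    exact this

theorem prod_int {ι : Type*} (s : Finset ι) (f : ι → ℚ) (hf : ∀ i ∈ s, Dv p 0 (f i)) : Dv p 0 (∏ i ∈ s, f i) := by
  classical
  induction s using Finset.induction_on with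
  | empty => simpa using Dv.one (p := p)
  | insert a s ha ih =>
    rw [prod_insert ha]
    exact (hf a (mem_insert_self _ _)).mul0 (ih fun i hi => hf i (mem_insert_of_mem hi))

theorem g2_mid (p3 : 3 < p) {h : ℕ} (hh : p = 2*h+1) {k : ℕ} (hk : h < k) (hkp : k < p) : Dv p 2 (gg3 (h+p) k) := by
  have h2 : p ≠ 2 := by omega
  have c2 : Dv p 0 (2:ℚ) := by have := Dv.nat (p := p) 2; push_cast at this; exact this
  rw [g2_eq hh k]
  have i3 : Dv p 0 (UU p 3 k) := prod_int _ _ fun j hj => by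
    have := fac_int (p := p) hh 3 (j := j) (by rw [mem_range] at hj; omega)
    push_cast at this; exact this
  have i2 : Dv p 0 (UU p 2 k) := prod_int _ _ fun j hj => by
    have := fac_int (p := p) hh 2 (j := j) (by rw [mem_range] at hj; omega)
    push_cast at this; exact this
  have L := PR_LR (p := p) c2 (m := 0) (k := k) (by omega)
  exact (((tt_van h2 hh hk hkp).mul0 i3).mul0 i2).div_unit L.unit.2

/-- the block `n ≥ p` -/
theorem g2_high {h : ℕ} (hh : p = 2*h+1) (i : ℕ) : gg3 (h+p) (p+i) = gg3 (h+p) p * (tt i * UU p 1 i / ∏ j ∈ range i, (1 - (p:ℚ)^2/((j:ℚ)+1)^2)) := by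
  rw [gg3_prod, gg3_prod, prod_range_add]
  congr 1
  unfold tt UU
  rw [← prod_mul_distrib, ← prod_div_distrib]
  refine prod_congr rfl fun j _ => ?_
  have hpq : (p:ℚ) = 2*h+1 := by rw [hh]; push_cast; ring
  push_cast
  rw [hpq]
  have h3 : 2*(j:ℚ)+1 ≠ 0 := by positivity
  have h5 : (j:ℚ)+1 ≠ 0 := by positivity
  have h6 : 2*(h:ℚ)+1+j+1 ≠ 0 := by positivity
  by_cases h0 : (j:ℚ)+1 = 2*h+1
  · have e1 : 1 - (2*(h:ℚ)+1)^2/((j:ℚ)+1)^2 = 0 := by
      rw [h0]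
      have : 2*(h:ℚ)+1 ≠ 0 := by positivity
      field_simp
      ring
    have e2 : (1-4*((h:ℚ)+(2*h+1)))/3+(2*h+1+j) = 0 := by linarith
    rw [e1, e2]; simp
  · have e1 : 1 - (2*(h:ℚ)+1)^2/((j:ℚ)+1)^2 = ((j:ℚ)+1-(2*h+1))*((j:ℚ)+1+(2*h+1))/((j:ℚ)+1)^2 := by
      field_simp
      ring
    have e2 : (1-4*((h:ℚ)+(2*h+1)))/3+(2*h+1+j) = (j:ℚ)+1-(2*h+1) := by ring
    have h7 : (j:ℚ)+1-(2*h+1) ≠ 0 := sub_ne_zero.2 h0
    have h8 : (j:ℚ)+1+(2*h+1) ≠ 0 := by positivity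
    rw [e1, e2]
    field_simp
    ring

theorem g2_high_cong (p3 : 3 < p) {h : ℕ} (hh : p = 2*h+1) {i : ℕ} (hi : i ≤ h) (hK : Dv p 0 (gg3 (h+p) p)) :
    Dv p 2 (gg3 (h+p) (p+i) - gg3 (h+p) p * ((tt i + ((h.choose i : ℕ) : ℚ)^2)/2)) := by
  have h2 : p ≠ 2 := by omega
  rw [g2_high hh i, pb_eq hh i hi]
  have hP := Pi2 (p := p) (k := i) (by omega)
  have hU := UU_LR (p := p) Dv.one hh hi
  set P := ∏ j ∈ range i, (1 - (p:ℚ)^2/((j:ℚ)+1)^2) with hPd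
  have hPu : P ≠ 0 ∧ padicValRat p P = 0 := by
    have : LR p P 0 := ⟨by simpa using hP, Dv.zero _⟩
    exact this.unit
  have hU1 := hU.one1
  have d1 := (((hP.neg).mul0 (tt_int h2 i)).mul0 hU.int).div_unit hPu.2
  have d2 := ((hU1.mul hU1).mul0 (tt_int h2 i)).div_unit (two_pow_unit h2 1)
  have d3 := (d1.sub d2).mul0 hK
  refine Dv_eq ?_ d3
  have := hPu.1
  field_simp
  ring

end

end Pool.Agent.N926.Qd
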