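import Pool.Agent.N926.Qd.C

/-! the linear congruences in `ℚ(√3)` -/

set_option autoImplicit false
set_option linter.unusedVariables false
set_option linter.unusedSectionVars false

namespace Pool.Agent.N926.Qd

open Finset Pool.Agent.N926.Sup2 Pool.Agent.N926.Sup Pool.Agent.N926.F54 Pool.Agent.N926.F37 Pool.Agent.N926.Tri Pool.Agent.N926.Fib

noncomputable section

def A3 : ℚ →+* R3 := algebraMap ℚ R3

theorem A3_re (c : ℚ) : (A3 c).re = c := rfl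
theorem A3_im (c : ℚ) : (A3 c).im = 0 := rfl

/-- conjugation -/
def cj : R3 →+* R3 where
  toFun z := ⟨z.re, -z.im⟩
  map_one' := by ext <;> simp [QuadraticAlgebra.re_one, QuadraticAlgebra.im_one]
  map_zero' := by ext <;> simp
  map_add' a b := by
    ext
    · simp
    · simp; ring
  map_mul' a b := by
    ext
    · simp
    · simp; ring

theorem cj_re (z : R3) : (cj z).re = z.re := rfl
theorem cj_im (z : R3) : (cj z).im = -z.im := rfl
theorem cj_A (c : ℚ) : cj (A3 c) = A3 c := by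
  ext
  · rw [cj_re]
  · rw [cj_im, A3_im]; simp

def Dr (p : ℕ) (n : ℤ) (z : R3) : Prop := Dv p n z.re ∧ Dv p n z.im

section
variable {p : ℕ} [hp : Fact p.Prime]

theorem Dr.zero (n : ℤ) : Dr p n 0 := ⟨Dv.zero _, Dv.zero _⟩
theorem Dr.add {n : ℤ} {x y : R3} (hx : Dr p n x) (hy : Dr p n y) : Dr p n (x+y) := ⟨hx.1.add hy.1, hx.2.add hy.2⟩
theorem Dr.neg {n : ℤ} {x : R3} (hx : Dr p n x) : Dr p n (-x) := ⟨hx.1.neg, hx.2.neg⟩
theorem Dr.sub {n : ℤ} {x y : R3} (hx : Dr p n x) (hy : Dr p n y) : Dr p n (x-y) := ⟨hx.1.sub hy.1, hx.2.sub hy.2⟩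
theorem Dr.mul {m n : ℤ} {x y : R3} (hx : Dr p m x) (hy : Dr p n y) : Dr p (m+n) (x*y) := by
  constructor
  · have h := (hx.1.mul hy.1).add ((hx.2.mul hy.2).mul0 (Dv.int (p := p) 3))
    refine Dv_eq ?_ h
    rw [QuadraticAlgebra.re_mul]
    push_cast
    ring
  · have h := (hx.1.mul hy.2).add (hx.2.mul hy.1)
    refine Dv_eq ?_ h
    rw [QuadraticAlgebra.im_mul]
    ring
theorem Dr.mono {m n : ℤ} {x : R3} (h : m ≤ n) (hx : Dr p n x) : Dr p m x := ⟨hx.1.mono h, hx.2.mono h⟩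
theorem Dr.mul0 {n : ℤ} {x y : R3} (hx : Dr p n x) (hy : Dr p 0 y) : Dr p n (x*y) := by simpa using hx.mul hy
theorem Dr.A {n : ℤ} {c : ℚ} (h : Dv p n c) : Dr p n (A3 c) := ⟨h, Dv.zero _⟩
theorem Dr.one : Dr p 0 (1:R3) := by
  have := Dr.A (p := p) (Dv.one (p := p))
  simpa using this
theorem Dr.pow {x : R3} (hx : Dr p 0 x) (k : ℕ) : Dr p 0 (x^k) := by
  induction k with
  | zero => simpa using Dr.one (p := p)
  | succ k ih => rw [pow_succ]; exact ih.mul0 hx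
theorem Dr.sum {ι : Type*} {n : ℤ} (s : Finset ι) (f : ι → R3) (h : ∀ i ∈ s, Dr p n (f i)) : Dr p n (∑ i ∈ s, f i) := by
  classical
  induction s using Finset.induction_on with
  | empty => simpa using Dr.zero (p := p) n
  | insert a s ha ih =>
    rw [sum_insert ha]
    exact (h a (mem_insert_self _ _)).add (ih fun i hi => h i (mem_insert_of_mem hi))
theorem Dr.cj {n : ℤ} {x : R3} (hx : Dr p n x) : Dr p n (cj x) := ⟨hx.1, hx.2.neg⟩
theorem Dr_eq {n : ℤ} {a b : R3} (h : a = b) (ha : Dr p n a) : Dr p n b := h ▸ ha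
theorem Dr.mk' {n : ℤ} (a b : ℚ) (ha : Dv p n a) (hb : Dv p n b) : Dr p n (⟨a,b⟩ : R3) := ⟨ha, hb⟩
theorem Dr.ints (a b : ℤ) : Dr p 0 (⟨a,b⟩ : R3) := ⟨Dv.int a, Dv.int b⟩

end

def x1 : R3 := ⟨8,4⟩
def w1 : R3 := ⟨4,2⟩
def v1 : R3 := ⟨1,-2/3⟩
def u1 : R3 := ⟨-7,4⟩

theorem wv : (1-w1)*v1 = 1 := by unfold w1 v1; ext <;> simp [QuadraticAlgebra.re_one, QuadraticAlgebra.im_one] <;> norm_num
theorem wz : (w1*v1)^2 = algebraMap ℚ R3 (4/3) := by
  rw [pow_two]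
  unfold w1 v1; ext <;> simp <;> norm_num
theorem xu : (1-x1)*u1 = 1 := by unfold x1 u1; ext <;> simp [QuadraticAlgebra.re_one, QuadraticAlgebra.im_one] <;> norm_num
theorem xu2 : -(x1*u1) = cj x1 := by unfold x1 u1 cj; ext <;> simp <;> norm_num
theorem w_x (n : ℕ) : (-w1)^n = A3 ((-1/2)^n) * x1^n := by
  have : -w1 = A3 (-1/2) * x1 := by
    unfold w1 x1
    ext
    · rw [QuadraticAlgebra.re_mul, A3_re, A3_im]; simp; norm_num
    · rw [QuadraticAlgebra.im_mul, A3_re, A3_im]; simp; norm_num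
  rw [this, mul_pow, map_pow]

def Sx (c : ℕ → ℚ) (N : ℕ) (x : R3) : R3 := ∑ k ∈ range N, A3 (c k) * x^k

theorem Sx_cj (c : ℕ → ℚ) (N : ℕ) (x : R3) : cj (Sx c N x) = Sx c N (cj x) := by
  unfold Sx
  rw [map_sum]
  exact sum_congr rfl fun k _ => by rw [map_mul, map_pow, cj_A]

def pbf (h k : ℕ) : ℚ := ((h.choose k : ℕ) : ℚ)^2

section
variable {p : ℕ} [hp : Fact p.Prime]

theorem Sx_dr (c : ℕ → ℚ) (N : ℕ) (x : R3) (n : ℤ) (hx : Dr p 0 x) (hc : ∀ k < N, Dv p n (c k)) : Dr p n (Sx c N x) :=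
  Dr.sum _ _ fun k hk => (Dr.A (hc k (mem_range.1 hk))).mul0 (hx.pow k)

theorem x1_int : Dr p 0 x1 := by
  have := Dr.ints (p := p) 8 4
  unfold x1
  push_cast at this
  exact this

theorem Sx_sub (c d : ℕ → ℚ) (N : ℕ) (x : R3) : Sx c N x - Sx d N x = Sx (fun k => c k - d k) N x := by
  unfold Sx
  rw [← sum_sub_distrib]
  exact sum_congr rfl fun k _ => by rw [map_sub]; ring

/-- the master congruence with a weight -/
theorem master (p3 : 3 < p) {h : ℕ} (hh : p = 2*h+1) (hK : Dv p 0 (gg3 (h+p) p)) (W : ℕ → ℚ) (hW : ∀ n, Dv p 0 (W n)) :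
    Dr p 2 (Sx (fun n => W n * gg3 (h+p) n) (h+p+1) x1 - 3 * Sx (fun n => W n * gg3 h n) (h+1) x1 + 2 * Sx (fun n => W n * tt n) (h+1) x1 -
      A3 (gg3 (h+p) p) * x1^p * Sx (fun i => W (p+i) * ((tt i + pbf h i)/2)) (h+1) x1) := by
  have hx := x1_int (p := p)
  have e1 : Sx (fun n => W n * gg3 (h+p) n) (h+p+1) x1 = Sx (fun n => W n * gg3 (h+p) n) (h+1) x1 +
      ∑ i ∈ range h, A3 (W (h+1+i) * gg3 (h+p) (h+1+i)) * x1^(h+1+i) +
      ∑ i ∈ range (h+1), A3 (W (p+i) * gg3 (h+p) (p+i)) * x1^(p+i) := by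
    unfold Sx
    have hr : range (h+p+1) = range (p+(h+1)) := by congr 1; ring
    have hr2 : range p = range ((h+1)+h) := by congr 1; omega
    rw [hr, sum_range_add, hr2, sum_range_add]
  have e2 : A3 (gg3 (h+p) p) * x1^p * Sx (fun i => W (p+i) * ((tt i + pbf h i)/2)) (h+1) x1 =
      ∑ i ∈ range (h+1), A3 (W (p+i) * (gg3 (h+p) p * ((tt i + pbf h i)/2))) * x1^(p+i) := by
    unfold Sx
    rw [mul_sum]
    refine sum_congr rfl fun i _ => ?_
    rw [pow_add, map_mul, map_mul, map_mul]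
    ring
  have e3 : Sx (fun n => W n * gg3 (h+p) n) (h+1) x1 - 3 * Sx (fun n => W n * gg3 h n) (h+1) x1 + 2 * Sx (fun n => W n * tt n) (h+1) x1 =
      Sx (fun n => W n * (gg3 (h+p) n - 3 * gg3 h n + 2 * tt n)) (h+1) x1 := by
    unfold Sx
    rw [mul_sum, mul_sum, ← sum_sub_distrib, ← sum_add_distrib]
    refine sum_congr rfl fun n _ => ?_
    have a3 : (3:R3) = A3 3 := (map_ofNat A3 3).symm
    have a2 : (2:R3) = A3 2 := (map_ofNat A3 2).symm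
    rw [a3, a2]
    simp only [map_mul, map_sub, map_add]
    ring
  have h1 : Dr p 2 (Sx (fun n => W n * (gg3 (h+p) n - 3 * gg3 h n + 2 * tt n)) (h+1) x1) :=
    Sx_dr _ _ _ _ hx fun k hk => by
      have := (g_cong p3 hh (show k ≤ h by omega)).mul0 (hW k)
      refine Dv_eq ?_ this
      ring
  have h2 : Dr p 2 (∑ i ∈ range h, A3 (W (h+1+i) * gg3 (h+p) (h+1+i)) * x1^(h+1+i)) := Dr.sum _ _ fun i hi => by
    rw [mem_range] at hi
    refine (Dr.A ?_).mul0 (hx.pow _)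
    have := (g2_mid p3 hh (show h < h+1+i by omega) (show h+1+i < p by omega)).mul0 (hW (h+1+i))
    refine Dv_eq ?_ this
    ring
  have h3 : Dr p 2 (∑ i ∈ range (h+1), A3 (W (p+i) * (gg3 (h+p) (p+i) - gg3 (h+p) p * ((tt i + pbf h i)/2))) * x1^(p+i)) := Dr.sum _ _ fun i hi => by
    rw [mem_range] at hi
    refine (Dr.A ?_).mul0 (hx.pow _)
    have := (g2_high_cong p3 hh (show i ≤ h by omega) hK).mul0 (hW (p+i))
    refine Dv_eq ?_ this
    unfold pbf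
    ring
  have e4 : ∑ i ∈ range (h+1), A3 (W (p+i) * (gg3 (h+p) (p+i) - gg3 (h+p) p * ((tt i + pbf h i)/2))) * x1^(p+i) =
      ∑ i ∈ range (h+1), A3 (W (p+i) * gg3 (h+p) (p+i)) * x1^(p+i) - ∑ i ∈ range (h+1), A3 (W (p+i) * (gg3 (h+p) p * ((tt i + pbf h i)/2))) * x1^(p+i) := by
    rw [← sum_sub_distrib]
    refine sum_congr rfl fun i _ => ?_
    rw [mul_sub, map_sub]
    ring
  rw [e4] at h3
  rw [← e3] at h1
  refine Dr_eq ?_ ((h1.add h2).add h3)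
  rw [e1, e2]
  ring

theorem Rn_half (n : ℕ) (hn : 1 ≤ n) : Rn (1-2*(n:ℚ)) n * 2^n = 2 := by
  have h1 : Rn (1-2*(n:ℚ)) n = ∏ j ∈ range n, ((2*(j:ℚ)+1)/((n:ℚ)+j)) := by
    unfold Rn
    rw [← prod_range_reflect]
    refine prod_congr rfl fun j hj => ?_
    rw [mem_range] at hj
    have : ((n-1-j : ℕ):ℚ) = n - 1 - j := by rw [Nat.cast_sub (by omega), Nat.cast_sub (by omega)]; push_cast; ring
    rw [this]
    have h2 : (n:ℚ) + j ≠ 0 := by
      have : (1:ℚ) ≤ n := by exact_mod_cast hn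
      positivity
    rw [show 1 - 2*(n:ℚ) + 2*((n:ℚ)-1-j) = -(2*(j:ℚ)+1) by ring, show 1 - 2*(n:ℚ) + ((n:ℚ)-1-j) = -((n:ℚ)+j) by ring, neg_div_neg_eq]
  rw [h1, prod_div_distrib]
  have h2 := fact_seg (n-1) n
  have h3 := f2 n
  unfold O2 at h3
  have h4 : ∏ l ∈ range n, (((n-1:ℕ):ℚ)+l+1) = ∏ l ∈ range n, ((n:ℚ)+l) := by
    refine prod_congr rfl fun l _ => ?_
    rw [Nat.cast_sub hn]; push_cast; ring
  rw [h4] at h2
  have h5 : ((2*n).factorial : ℚ) = 2*n * ((n-1+n).factorial : ℚ) := by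
    have : 2*n = (n-1+n)+1 := by omega
    rw [this, Nat.factorial_succ]
    push_cast
    rw [Nat.cast_sub hn]
    push_cast
    ring
  have h6 : (n.factorial : ℚ) = n * ((n-1).factorial : ℚ) := by
    have := Nat.mul_factorial_pred (n := n) (by omega)
    rw [← this]; push_cast; ring
  rw [h5, h2, h6] at h3
  have h7 : ((n-1).factorial : ℚ) ≠ 0 := by exact_mod_cast (n-1).factorial_ne_zero
  have h8 : (n:ℚ) ≠ 0 := by
    have : 0 < n := hn
    positivity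
  have h9 : ∏ l ∈ range n, ((n:ℚ)+l) ≠ 0 := by
    rw [prod_ne_zero_iff]
    intro l _
    have : (1:ℚ) ≤ n := by exact_mod_cast hn
    positivity
  rw [div_mul_eq_mul_div, div_eq_iff h9]
  have h10 : (n:ℚ) * ((n-1).factorial : ℚ) ≠ 0 := mul_ne_zero h8 h7
  apply mul_right_cancel₀ h10
  linarith

theorem K_eq (h : ℕ) (hh : p = 2*h+1) : gg3 (h+p) p * 4^p = -2 * (((p+h).choose h : ℕ) : ℚ) := by
  unfold gg3 cc3
  have h1 := Rn_half p (by have := hp.out.one_lt; omega)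
  have hpq : (p:ℚ) = 2*h+1 := by rw [hh]; push_cast; ring
  have e1 : (1-4*((h+p:ℕ):ℚ))/3 = 1-2*(p:ℚ) := by push_cast; rw [hpq]; ring
  rw [e1]
  have e2 : (h+p).choose p = (p+h).choose h := by
    rw [← Nat.choose_symm_add, add_comm]
  rw [e2]
  have hodd : (-1:ℚ)^p = -1 := by rw [hh, pow_succ, pow_mul]; simp
  have e3 : (-1/2:ℚ)^p * 4^p = -2^p := by
    rw [← mul_pow, show (-1/2:ℚ)*4 = -1*2 by norm_num, mul_pow, hodd]; ring
  linear_combination (((p+h).choose h : ℕ) : ℚ) * Rn (1-2*(p:ℚ)) p * e3 - (((p+h).choose h : ℕ) : ℚ) * h1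

theorem K_int (h2 : p ≠ 2) (h : ℕ) (hh : p = 2*h+1) : Dv p 0 (gg3 (h+p) p) := by
  have h1 := K_eq (p := p) h hh
  have h4 : (4:ℚ)^p ≠ 0 := by positivity
  have e : gg3 (h+p) p = -2 * (((p+h).choose h : ℕ) : ℚ) / 4^p := by rw [eq_div_iff h4]; exact h1
  have e4 : (4:ℚ)^p = 2^(2*p) := by rw [pow_mul]; norm_num
  rw [e, e4]
  have := (Dv.int (p := p) (-2 * (((p+h).choose h : ℕ) : ℤ))).div_unit (two_pow_unit h2 (2*p))
  push_cast at this
  exact this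

/-- first Pfaff congruence -/
theorem P_one (h2 : p ≠ 2) {h : ℕ} (hh : p = 2*h+1) :
    Dr p 2 (Sx tt (h+1) x1 - (1-x1)^h * cj (Sx (pbf h) (h+1) x1)) := by
  have h1 := pfE h x1 u1 xu
  rw [xu2] at h1
  have e1 : ∑ k ∈ range (h+1), algebraMap ℚ R3 (((h.choose k)^2 : ℕ) : ℚ) * (cj x1)^k = cj (Sx (pbf h) (h+1) x1) := by
    rw [Sx_cj]
    unfold Sx pbf
    refine sum_congr rfl fun k _ => ?_
    rw [Nat.cast_pow]
    rfl
  have e2 : ∑ n ∈ range (h+1), algebraMap ℚ R3 ((h.choose n * (h+n).choose n : ℕ) : ℚ) * (-x1)^n =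
      Sx (fun n => ((h.choose n * (h+n).choose n : ℕ) : ℚ) * (-1)^n) (h+1) x1 := by
    unfold Sx
    refine sum_congr rfl fun n _ => ?_
    rw [map_mul, map_pow, neg_pow x1]
    simp only [map_neg, map_one]
    rw [show algebraMap ℚ R3 = A3 from rfl]
    ring
  rw [e1, e2] at h1
  rw [← h1]
  have h3 : Dr p 2 (Sx (fun k => tt k - ((h.choose k * (h+k).choose k : ℕ) : ℚ) * (-1)^k) (h+1) x1) :=
    Sx_dr _ _ _ _ x1_int fun k hk => by
      have := (pa_cong h2 hh (show k ≤ h by omega)).neg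
      refine Dv_eq ?_ this
      ring
  rw [← Sx_sub] at h3
  exact h3

theorem P_theta (h2 : p ≠ 2) {h : ℕ} (hh : p = 2*h+1) :
    Dr p 2 (Sx (fun k => k * tt k) (h+1) x1 - (1-x1)^h * (u1 * cj (Sx (fun k => k * pbf h k) (h+1) x1) - A3 h * x1 * u1 * cj (Sx (pbf h) (h+1) x1))) := by
  have h1 := pfD h x1 u1 xu
  rw [xu2] at h1
  have e1 : ∑ k ∈ range (h+1), algebraMap ℚ R3 (((h.choose k)^2 : ℕ) : ℚ) * (cj x1)^k = cj (Sx (pbf h) (h+1) x1) := by
    rw [Sx_cj]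
    unfold Sx pbf
    refine sum_congr rfl fun k _ => ?_
    rw [Nat.cast_pow]
    rfl
  have e1' : ∑ k ∈ range (h+1), algebraMap ℚ R3 (k * (((h.choose k)^2 : ℕ) : ℚ)) * (cj x1)^k = cj (Sx (fun k => k * pbf h k) (h+1) x1) := by
    rw [Sx_cj]
    unfold Sx pbf
    refine sum_congr rfl fun k _ => ?_
    rw [Nat.cast_pow]
    rfl
  have e2 : ∑ n ∈ range (h+1), algebraMap ℚ R3 (n * ((h.choose n * (h+n).choose n : ℕ) : ℚ)) * (-x1)^n =
      Sx (fun n => n * (((h.choose n * (h+n).choose n : ℕ) : ℚ) * (-1)^n)) (h+1) x1 := by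
    unfold Sx
    refine sum_congr rfl fun n _ => ?_
    rw [map_mul, map_mul, map_mul, map_pow, neg_pow x1]
    simp only [map_neg, map_one]
    rw [show algebraMap ℚ R3 = A3 from rfl]
    ring
  rw [e1, e1', e2] at h1
  have h1' : (1-x1)^h * (u1 * cj (Sx (fun k => k * pbf h k) (h+1) x1) - A3 h * x1 * u1 * cj (Sx (pbf h) (h+1) x1)) =
      Sx (fun n => n * (((h.choose n * (h+n).choose n : ℕ) : ℚ) * (-1)^n)) (h+1) x1 := h1.symm
  rw [h1']
  have h3 : Dr p 2 (Sx (fun k => k * tt k - k * (((h.choose k * (h+k).choose k : ℕ) : ℚ) * (-1)^k)) (h+1) x1) :=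
    Sx_dr _ _ _ _ x1_int fun k hk => by
      have := ((pa_cong h2 hh (show k ≤ h by omega)).neg).mul0 (Dv.nat (p := p) k)
      refine Dv_eq ?_ this
      ring
  rw [← Sx_sub] at h3
  exact h3

end

theorem GG_eq (m : ℕ) (hm : ∀ j : ℕ, j < m → (1-4*(m:ℚ))/3 + j ≠ 0) : Sx (gg3 m) (m+1) x1 = (1-w1)^m * A3 (FF m) := by
  have h1 := quadE' w1 v1 wv m hm wz
  have h2 : (1-w1)^m * A3 (FF m) = (1-w1)^m * algebraMap ℚ R3 (FF m) := rfl
  rw [h2, ← h1]
  unfold Sx gg3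
  refine sum_congr rfl fun n _ => ?_
  rw [w_x, map_mul]
  rw [show algebraMap ℚ R3 = A3 from rfl]
  ring

theorem GGt_eq (m : ℕ) (hm : ∀ j : ℕ, j < m → (1-4*(m:ℚ))/3 + j ≠ 0) : Sx (fun n => n * gg3 m n) (m+1) x1 =
    (1-w1)^m * (A3 (2*(m*FF m - LL m)) - A3 (2*LL m - m*FF m) * (w1*v1)) := by
  have h1 := quadD' w1 v1 wv m hm wz
  have h2 : (1-w1)^m * (A3 (2*(m*FF m - LL m)) - A3 (2*LL m - m*FF m) * (w1*v1)) =
    (1-w1)^m * (algebraMap ℚ R3 (2*(m*FF m - LL m)) - algebraMap ℚ R3 (2*LL m - m*FF m) * (w1*v1)) := rfl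
  rw [h2, ← h1]
  unfold Sx gg3
  refine sum_congr rfl fun n _ => ?_
  rw [w_x, map_mul, map_mul, map_mul]
  rw [show algebraMap ℚ R3 = A3 from rfl]
  ring

end

end Pool.Agent.N926.Qd
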