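import Pool.Agent.N926.Qd.D

/-! first order expansions of the data -/

set_option autoImplicit false
set_option linter.unusedVariables false
set_option linter.unusedSectionVars false

namespace Pool.Agent.N926.Qd

open Finset Pool.Agent.N926.Sup2 Pool.Agent.N926.Sup Pool.Agent.N926.F54 Pool.Agent.N926.F37 Pool.Agent.N926.Tri Pool.Agent.N926.Fib

noncomputable section

/-- `z ≡ a + p b (mod p²)` with `a, b` integral -/
def N1 (p : ℕ) (z a b : ℚ) : Prop := Dv p 2 (z - (a + p*b)) ∧ Dv p 0 a ∧ Dv p 0 b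

def eE : R3 := ⟨2,1⟩
def s3 : R3 := ⟨0,1⟩

section
variable {p : ℕ} [hp : Fact p.Prime]

theorem N1.int {z a b : ℚ} (h : N1 p z a b) : Dv p 0 z := by
  have := (h.1.mono (show (0:ℤ) ≤ 2 by norm_num)).add (h.2.1.add ((Dv.nat (p := p) p).mul0 h.2.2))
  refine Dv_eq ?_ this
  ring

theorem N1.mul {z a b z' a' b' : ℚ} (h : N1 p z a b) (g : N1 p z' a' b') : N1 p (z*z') (a*a') (a*b'+b*a') := by
  refine ⟨?_, h.2.1.mul0 g.2.1, (h.2.1.mul0 g.2.2).add (h.2.2.mul0 g.2.1)⟩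
  have e1 := h.1.mul0 g.int
  have e2 := g.1.mul0 (h.2.1.add ((Dv.nat (p := p) p).mul0 h.2.2))
  have e3 := (Dv.p_pow (p := p) 2).mul0 (h.2.2.mul0 g.2.2)
  refine Dv_eq ?_ ((e1.add e2).add e3)
  ring

theorem N1.add {z a b z' a' b' : ℚ} (h : N1 p z a b) (g : N1 p z' a' b') : N1 p (z+z') (a+a') (b+b') := by
  refine ⟨Dv_eq ?_ (h.1.add g.1), h.2.1.add g.2.1, h.2.2.add g.2.2⟩
  ring

theorem N1.neg {z a b : ℚ} (h : N1 p z a b) : N1 p (-z) (-a) (-b) :=
  ⟨Dv_eq (by ring) h.1.neg, h.2.1.neg, h.2.2.neg⟩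

theorem N1.sub {z a b z' a' b' : ℚ} (h : N1 p z a b) (g : N1 p z' a' b') : N1 p (z-z') (a-a') (b-b') := by
  have := h.add g.neg
  simpa [sub_eq_add_neg] using this

theorem N1.const {c : ℚ} (h : Dv p 0 c) : N1 p c c 0 := ⟨Dv_eq (by ring) (Dv.zero (p := p) 2), h, Dv.zero _⟩

theorem N1.intc (c : ℤ) : N1 p (c:ℚ) c 0 := N1.const (Dv.int c)

theorem N1.congr {z a b z' a' b' : ℚ} (h : N1 p z a b) (hz : z = z') (ha : a = a') (hb : b = b') : N1 p z' a' b' := by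
  rw [← hz, ← ha, ← hb]; exact h

theorem N1.ofLR {a w : ℚ} (h : LR p a w) : N1 p a 1 w := ⟨dlr (v := w) h, Dv.one, h.2⟩

theorem N1.zero {z : ℚ} (h : N1 p z 0 0) : Dv p 2 z := Dv_eq (by ring) h.1

theorem eE_norm (n : ℕ) : (eE^n).re^2 - 3*(eE^n).im^2 = 1 := by
  induction n with
  | zero => simp [QuadraticAlgebra.re_one, QuadraticAlgebra.im_one]
  | succ n ih =>
    rw [pow_succ eE n, QuadraticAlgebra.re_mul, QuadraticAlgebra.im_mul]
    unfold eE at ih ⊢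
    simp only
    linear_combination ih

theorem s3_pow (h : ℕ) : s3^(2*h+1) = A3 (3^h) * s3 := by
  have : s3^2 = A3 3 := by
    rw [pow_two]; unfold s3
    ext
    · rw [QuadraticAlgebra.re_mul, A3_re]; simp
    · rw [QuadraticAlgebra.im_mul, A3_im]; simp
  rw [pow_succ, pow_mul, this, ← map_pow]

theorem two_E : (1 + s3)^2 = A3 2 * eE := by
  rw [pow_two]; unfold s3 eE
  ext
  · rw [QuadraticAlgebra.re_mul, QuadraticAlgebra.re_mul, A3_re, A3_im]; simp [QuadraticAlgebra.re_one, QuadraticAlgebra.im_one]; norm_num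
  · rw [QuadraticAlgebra.im_mul, QuadraticAlgebra.im_mul, A3_re, A3_im]; simp [QuadraticAlgebra.re_one, QuadraticAlgebra.im_one]; norm_num

theorem frob : Dr p 1 ((1+s3)^p - (1 + s3^p)) := by
  obtain ⟨q, hq⟩ : ∃ q, p = q+1 := ⟨p-1, by have := hp.out.one_lt; omega⟩
  have h1 : (1+s3)^p - (1 + s3^p) = ∑ i ∈ range q, s3^(i+1) * ((p.choose (i+1) : ℕ) : R3) := by
    have h2 := add_pow s3 1 p
    rw [show s3 + 1 = 1 + s3 by ring] at h2
    rw [h2, sum_range_succ, hq, sum_range_succ']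
    simp only [one_pow, mul_one, Nat.choose_self, Nat.cast_one, pow_zero, one_mul, Nat.choose_zero_right]
    ring
  rw [h1]
  refine Dr.sum _ _ fun i hi => ?_
  rw [mem_range] at hi
  have h3 := hp.out.dvd_choose_self (show i+1 ≠ 0 by omega) (show i+1 < p by omega)
  have h4 := Dr.A (dv_of_nat_dvd h3)
  have h5 : ((p.choose (i+1) : ℕ) : R3) = A3 ((p.choose (i+1) : ℕ) : ℚ) := by rw [map_natCast]
  rw [h5, mul_comm]
  refine h4.mul0 (Dr.pow ?_ _)
  have := Dr.ints (p := p) 0 1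
  unfold s3
  push_cast at this
  exact this

/-- `E^h` modulo `p` -/
theorem EH (h2 : p ≠ 2) {h : ℕ} (hh : p = 2*h+1) :
    Dv p 1 ((2:ℚ)^h * ((eE^h).re + 3*(eE^h).im) - 1) ∧ Dv p 1 ((2:ℚ)^h * ((eE^h).re + (eE^h).im) - 3^h) := by
  have h1 := frob (p := p)
  have h3 : (1+s3)^p = (1+s3) * (A3 (2^h) * eE^h) := by
    rw [hh, pow_succ, pow_mul, two_E, mul_pow, ← map_pow]; ring
  have h4 : s3^p = A3 (3^h) * s3 := by
    have := s3_pow h
    rwa [← hh] at this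
  rw [h3, h4] at h1
  obtain ⟨a, b⟩ := h1
  constructor
  · refine Dv_eq ?_ a
    rw [QuadraticAlgebra.re_sub, QuadraticAlgebra.re_mul, QuadraticAlgebra.re_add, QuadraticAlgebra.im_add, QuadraticAlgebra.re_mul, QuadraticAlgebra.im_mul, QuadraticAlgebra.re_add, QuadraticAlgebra.re_mul, A3_re, A3_im, A3_re, A3_im]
    unfold s3
    simp only [QuadraticAlgebra.re_one, QuadraticAlgebra.im_one]
    ring
  · refine Dv_eq ?_ b
    rw [QuadraticAlgebra.im_sub, QuadraticAlgebra.im_mul, QuadraticAlgebra.re_add, QuadraticAlgebra.im_add, QuadraticAlgebra.re_mul, QuadraticAlgebra.im_mul, QuadraticAlgebra.im_add, QuadraticAlgebra.im_mul, A3_re, A3_im, A3_re, A3_im]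
    unfold s3
    simp only [QuadraticAlgebra.re_one, QuadraticAlgebra.im_one]
    ring

/-- `(-1)^i 3^{3i}` -/
theorem three_LR (p3 : 3 < p) {i : ℕ} (hi : p = 6*i+1) (i1 : 1 ≤ i) : LR p ((-1)^i * 3^(3*i)) (-(1/3) * Hs 1 (2*i)) := by
  have h2 : p ≠ 2 := by omega
  have a1 := s1 hi
  have a2 := s2 hi
  have a3 := f1 i
  have hu3 : padicValRat p (3:ℚ) = 0 := by
    have := unit3 (p := p) p3 1
    rwa [pow_one] at this
  have c13 : Dv p 0 (1/3:ℚ) := by
    have := (Dv.one (p := p)).div_unit hu3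
    exact this
  have L1 := PR_LR (p := p) c13 (m := i) (k := i) (by omega)
  have L2 := PR_LR (p := p) c13 (m := 2*i) (k := i) (by omega)
  have L := (L1.mul L2).inv
  have hHi : (2:ℕ)*i + i = 3*i := by ring
  rw [show i + i = 2*i by ring, hHi] at L
  have n1 : (i.factorial : ℚ) ≠ 0 := by exact_mod_cast i.factorial_ne_zero
  have n2 : ((2*i).factorial : ℚ) ≠ 0 := by exact_mod_cast (2*i).factorial_ne_zero
  have n3 : ((3*i).factorial : ℚ) ≠ 0 := by exact_mod_cast (3*i).factorial_ne_zero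
  have hP : PR p (1/3) i i * PR p (1/3) (2*i) i ≠ 0 := (L1.mul L2).unit.1
  have key : ((-1)^i * 3^(3*i) : ℚ) * (PR p (1/3) i i * PR p (1/3) (2*i) i) = 1 := by
    have e1 : (F54.A3 i * (i.factorial : ℚ)) * (B3 i * ((2*i).factorial : ℚ)) = ((-3)^i * ((2*i).factorial : ℚ) * PR p (1/3) i i) * (3^i * ((3*i).factorial : ℚ) * PR p (1/3) (2*i) i) := by
      rw [a1, a2]
    have e2 : (3:ℚ)^(3*i) = 3^i * 3^i * 3^i := by rw [← pow_add, ← pow_add]; congr 1; ring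
    have e3 : (-3:ℚ)^i = (-1)^i * 3^i := by rw [← mul_pow]; norm_num
    rw [← a3, e3] at e1
    have h3i : (3:ℚ)^i ≠ 0 := by positivity
    have hA : F54.A3 i * B3 i ≠ 0 := by
      intro h0
      rw [h0, zero_mul] at a3
      exact n3 a3.symm
    have e4 : F54.A3 i * B3 i * ((i.factorial : ℚ) * ((2*i).factorial : ℚ)) * (((-1)^i * (3^i*3^i*3^i) : ℚ) * (PR p (1/3) i i * PR p (1/3) (2*i) i)) = F54.A3 i * B3 i * ((i.factorial : ℚ) * ((2*i).factorial : ℚ)) * 1 := by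
      linear_combination (-1:ℚ) * e1
    rw [e2]
    exact mul_left_cancel₀ (mul_ne_zero hA (mul_ne_zero n1 n2)) e4
  have e5 : ((-1)^i * 3^(3*i) : ℚ) = (PR p (1/3) i i * PR p (1/3) (2*i) i)⁻¹ := by
    exact eq_inv_of_mul_eq_one_left key
  rw [e5]
  have hr := H_rel h2 hi i1
  refine LR_congr L ?_
  refine Dv_eq ?_ (hr.mul0 c13.neg)
  ring

/-- all the first order data -/
structure Data (p i : ℕ) (f x2 x3 : ℚ) : Prop where
  th : N1 p (3^(3*i)) ((-1)^i) (-((-1)^i)*x2/3)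
  K4 : N1 p (-2 * (((p+3*i).choose (3*i) : ℕ) : ℚ)) (-2) (-2*x3)
  F0 : N1 p (FF (3*i)) f (f*(2/3*x2))
  F1 : N1 p (FF (3*i+p)) f (f*(x2+2/3*x3))
  SS : N1 p (SS p) f (f*(x2/2-x3/3))
  ff : Dv p 0 f
  x2i : Dv p 0 x2
  x3i : Dv p 0 x3

theorem third_int (p3 : 3 < p) : Dv p 0 (1/3:ℚ) := by
  have hu3 : padicValRat p (3:ℚ) = 0 := by
    have := unit3 (p := p) p3 1
    rwa [pow_one] at this
  exact (Dv.one (p := p)).div_unit hu3

theorem half_int' (p3 : 3 < p) : Dv p 0 (1/2:ℚ) := by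
  have := (Dv.one (p := p)).div_unit (two_pow_unit (p := p) (by omega) 1)
  simpa using this

theorem mkData (p3 : 3 < p) {i : ℕ} (hi : p = 6*i+1) (i1 : 1 ≤ i) : Data p i (CC i) (Hs 1 (2*i)) (Hs 1 (3*i)) := by
  have h2 : p ≠ 2 := by omega
  have h3 : p ≠ 3 := by omega
  have c3 := third_int (p := p) p3
  have c2 := half_int' (p := p) p3
  have hf : Dv p 0 (CC i) := Or.inr (CC_unit hi i1).2.ge
  have i2 : Dv p 0 (Hs 1 (2*i)) := Hs_int (by omega)
  have i3 : Dv p 0 (Hs 1 (3*i)) := Hs_int (by omega)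
  have hr := H_rel h2 hi i1
  have hth : N1 p (3^(3*i)) ((-1)^i) (-((-1)^i)*Hs 1 (2*i)/3) := by
    have := (N1.const (p := p) (Dv_eq (by push_cast; ring) (Dv.int (p := p) ((-1)^i)) : Dv p 0 ((-1:ℚ)^i))).mul (N1.ofLR (three_LR p3 hi i1))
    refine this.congr ?_ (by ring) (by ring)
    rw [← mul_assoc, Tri.sg, one_mul]
  have hF0 : N1 p (FF (3*i)) (CC i) (CC i * (2/3*Hs 1 (2*i))) := by
    obtain ⟨a, ha, hL⟩ := FFa h2 h3 hi i1
    have L2 : LR p a (2/3*Hs 1 (2*i)) := LR_congr hL (Dv_eq (by ring) (hr.mul0 c2))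
    rw [ha]
    exact ((N1.const hf).mul (N1.ofLR L2)).congr rfl (by ring) (by ring)
  have hF1 : N1 p (FF (3*i+p)) (CC i) (CC i * (Hs 1 (2*i)+2/3*Hs 1 (3*i))) := by
    obtain ⟨a, ha, hL⟩ := FFb h2 h3 hi i1
    have c23 : Dv p 0 (2/3:ℚ) := Dv_eq (by norm_num) ((Dv.nat (p := p) 2).mul0 c3)
    have L2 : LR p a (Hs 1 (2*i)+2/3*Hs 1 (3*i)) := LR_congr hL (Dv_eq (by ring) (hr.mul0 c23))
    have : 3*i+p = 3*(3*i)+1 := by omega
    rw [this, ha]
    exact ((N1.const hf).mul (N1.ofLR L2)).congr rfl (by ring) (by ring)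
  refine ⟨hth, ?_, hF0, hF1, ?_, hf, i2, i3⟩
  · have L := PR_LR (p := p) (c := -1) (Dv.one.neg) (m := 0) (k := 3*i) (by omega)
    have e1 : (((p+3*i).choose (3*i) : ℕ) : ℚ) = PR p (-1) 0 (3*i) := by
      rw [chp_prod]
      unfold PR
      refine prod_congr rfl fun j _ => ?_
      push_cast
      ring
    rw [e1]
    refine ((N1.intc (p := p) (-2)).mul (N1.ofLR L)).congr (by push_cast; ring) (by push_cast; ring) ?_
    rw [Hs_zero]
    push_cast
    rw [zero_add]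
    ring
  · have hq := (q_F (p := p) h2 h3 (h := 3*i) (by omega)).final
    have h5 := ((hF0.mul (N1.intc 3)).sub hF1).mul (N1.const c2)
    have h6 := h5.congr (z' := (FF (3*i) * (3:ℤ) - FF (3*i+p)) * (1/2)) (a' := CC i) (b' := CC i * (Hs 1 (2*i)/2-Hs 1 (3*i)/3)) rfl (by push_cast; ring) (by push_cast; ring)
    refine ⟨?_, h6.2.1, h6.2.2⟩
    have h7 := (hq.mul0 c2).neg
    refine Dv_eq ?_ (h6.1.add (hq.mul0 c2.neg) )
    unfold F37.SS
    push_cast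
    ring

end

end

end Pool.Agent.N926.Qd
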