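import Pool.Agent.N926.Qd.E

/-! the linear system for the first sum -/

set_option autoImplicit false
set_option linter.unusedVariables false
set_option linter.unusedSectionVars false

namespace Pool.Agent.N926.Qd

open Finset Pool.Agent.N926.Sup2 Pool.Agent.N926.Sup Pool.Agent.N926.F54 Pool.Agent.N926.F37 Pool.Agent.N926.Tri Pool.Agent.N926.Fib

noncomputable section

abbrev AA3 : ℚ →+* R3 := Pool.Agent.N926.Qd.A3

theorem cj_s3 : cj s3 = -s3 := by unfold s3 cj; ext <;> simp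
theorem ee : eE * cj eE = 1 := by unfold eE cj; ext <;> simp [QuadraticAlgebra.re_one, QuadraticAlgebra.im_one] <;> norm_num
theorem se1 : 1 - w1 = -(s3 * eE) := by unfold w1 s3 eE; ext <;> simp [QuadraticAlgebra.re_one, QuadraticAlgebra.im_one] <;> norm_num
theorem se2 : 1 - x1 = -(eE^2) := by rw [pow_two]; unfold x1 eE; ext <;> simp [QuadraticAlgebra.re_one, QuadraticAlgebra.im_one] <;> norm_num
theorem se3 : x1 = AA3 4 * eE := by
  unfold x1 eE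
  ext
  · rw [QuadraticAlgebra.re_mul, A3_re, A3_im]; simp; norm_num
  · rw [QuadraticAlgebra.im_mul, A3_re, A3_im]; simp
theorem ss3 : s3^2 = AA3 3 := by
  rw [pow_two]; unfold s3
  ext
  · rw [QuadraticAlgebra.re_mul, A3_re]; simp
  · rw [QuadraticAlgebra.im_mul, A3_im]; simp

theorem negone_sq (h : ℕ) : ((-1:R3)^h)^2 = 1 := by rw [← pow_mul, mul_comm, pow_mul]; simp

/-- `1-w` to the power `h` -/
theorem w_pow (h : ℕ) : (1-w1)^h = (-1)^h * (s3^h * eE^h) := by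
  rw [se1, neg_pow, mul_pow]

theorem w_pow2 (p h : ℕ) (hh : p = 2*h+1) : (1-w1)^(h+p) = -((-1)^h * AA3 (3^h) * s3 * (s3^h * (eE^h * eE^p))) := by
  have e1 : h + p = h + (2*h+1) := by omega
  rw [e1, pow_add, w_pow, se1, ← hh]
  have e2 : (-(s3*eE))^p = -(AA3 (3^h) * s3 * eE^p) := by
    rw [neg_pow, mul_pow]
    have : s3^p = AA3 (3^h) * s3 := by
      have := s3_pow h
      rwa [← hh] at this
    rw [this]
    have : (-1:R3)^p = -1 := by rw [hh, pow_succ, pow_mul]; simp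
    rw [this]
    ring
  rw [e2]
  ring

theorem L_pow (h : ℕ) : (1-x1)^h = (-1)^h * (eE^h)^2 := by
  rw [se2, neg_pow, ← pow_mul, ← pow_mul, mul_comm 2 h]

theorem cj_pow1 (n : ℕ) : cj ((-1:R3)^n) = (-1)^n := by rw [map_pow, map_neg, map_one]

theorem LLb (h : ℕ) : (1-x1)^h * cj ((1-x1)^h) = 1 := by
  rw [map_pow, ← mul_pow]
  have : (1-x1) * cj (1-x1) = 1 := by
    rw [se2, map_neg, map_pow]
    have := ee
    calc -eE^2 * -(cj eE)^2 = (eE * cj eE)^2 := by ring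
      _ = 1 := by rw [this]; ring
  rw [this, one_pow]

theorem cancel_e (n : ℕ) : eE^n * cj (eE^n) = 1 := by
  rw [map_pow, ← mul_pow, ee, one_pow]

section
variable {p : ℕ} [hp : Fact p.Prime]

theorem kx (h : ℕ) (hh : p = 2*h+1) : AA3 (gg3 (h+p) p) * x1^p = AA3 (-2 * (((p+h).choose h : ℕ) : ℚ)) * eE^p := by
  rw [se3, mul_pow, ← map_pow, ← mul_assoc, ← map_mul, K_eq h hh]

theorem s3_int : Dr p 0 s3 := by
  have := Dr.ints (p := p) 0 1
  unfold s3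
  push_cast at this
  exact this
theorem eE_int : Dr p 0 eE := by
  have := Dr.ints (p := p) 2 1
  unfold eE
  push_cast at this
  exact this
theorem L_int (h : ℕ) : Dr p 0 ((1-x1)^h) := ((Dr.one (p := p)).sub (x1_int (p := p))).pow h

theorem gg_hyp {i j : ℕ} (hi : p = 6*i+1) : (1-4*((3*i:ℕ):ℚ))/3 + j ≠ 0 := by
  intro h0
  have h1 : (1:ℚ) + 3*j = 12*i := by push_cast at h0; linarith
  have h2 : 1 + 3*j = 12*i := by exact_mod_cast h1
  omega

theorem gg_hyp2 {i j : ℕ} (hi : p = 6*i+1) : j < 3*i+p → (1-4*((3*i+p:ℕ):ℚ))/3 + j ≠ 0 := by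
  intro hj h0
  have h1 : (1:ℚ) + 3*j = 4*(3*i+p) := by push_cast at h0; linarith
  have h2 : 1 + 3*j = 4*(3*i+p) := by exact_mod_cast h1
  omega

/-- the first relation: `M1` -/
theorem M_one (p3 : 3 < p) {i : ℕ} (hi : p = 6*i+1) :
    Dr p 2 ((1-w1)^(3*i+p) * AA3 (FF (3*i+p)) - 3 * ((1-w1)^(3*i) * AA3 (FF (3*i))) + 2 * Sx tt (3*i+1) x1 -
      AA3 (-2 * (((p+3*i).choose (3*i) : ℕ) : ℚ)) * eE^p * (AA3 (1/2) * (Sx tt (3*i+1) x1 + Sx (pbf (3*i)) (3*i+1) x1))) := by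
  have hh : p = 2*(3*i)+1 := by omega
  have hK := K_int (p := p) (by omega) (3*i) hh
  have h1 := master p3 hh hK (fun _ => 1) (fun _ => Dv.one)
  rw [kx (3*i) hh] at h1
  rw [← GG_eq (3*i+p) (fun j hj => gg_hyp2 hi hj), ← GG_eq (3*i) (fun j _ => gg_hyp hi)]
  simp only [one_mul] at h1
  have e : Sx (fun n => (tt n + pbf (3*i) n)/2) (3*i+1) x1 = AA3 (1/2) * (Sx tt (3*i+1) x1 + Sx (pbf (3*i)) (3*i+1) x1) := by
    unfold Sx
    rw [mul_add, mul_sum, mul_sum, ← sum_add_distrib]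
    refine sum_congr rfl fun n _ => ?_
    have e2 : AA3 ((tt n + pbf (3*i) n)/2) = AA3 (1/2) * (AA3 (tt n) + AA3 (pbf (3*i) n)) := by
      rw [← map_add, ← map_mul]; congr 1; ring
    show AA3 ((tt n + pbf (3*i) n)/2) * x1^n = _
    rw [e2]; ring
  rw [e] at h1
  exact h1

theorem pbf_int (h k : ℕ) : Dv p 0 (pbf h k) := by
  unfold pbf
  have := Dv.nat (p := p) ((h.choose k)^2)
  push_cast at this
  exact this

theorem P_one' (h2 : p ≠ 2) {h : ℕ} (hh : p = 2*h+1) :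
    Dr p 2 (Sx (pbf h) (h+1) x1 - (1-x1)^h * cj (Sx tt (h+1) x1)) := by
  have h1 := (P_one h2 hh).cj.mul0 (L_int (p := p) h)
  have h3 := LLb h
  refine Dr_eq ?_ h1.neg
  rw [map_sub, map_mul]
  have : cj (cj (Sx (pbf h) (h+1) x1)) = Sx (pbf h) (h+1) x1 := by
    ext
    · rw [cj_re, cj_re]
    · rw [cj_im, cj_im, neg_neg]
  rw [this]
  linear_combination (Sx (pbf h) (h+1) x1) * h3

/-- the second form of the first relation -/
theorem M_one' (p3 : 3 < p) {i : ℕ} (hi : p = 6*i+1) :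
    Dr p 2 ((1-w1)^(3*i+p) * AA3 (FF (3*i+p)) - 3 * ((1-w1)^(3*i) * AA3 (FF (3*i))) + 2 * Sx tt (3*i+1) x1 -
      AA3 (-2 * (((p+3*i).choose (3*i) : ℕ) : ℚ)) * eE^p * (AA3 (1/2) * (Sx tt (3*i+1) x1 + (1-x1)^(3*i) * cj (Sx tt (3*i+1) x1)))) := by
  have h1 := M_one p3 hi
  have h2 := P_one' (p := p) (by omega) (show p = 2*(3*i)+1 by omega)
  have c1 : Dr p 0 (AA3 (-2 * (((p+3*i).choose (3*i) : ℕ) : ℚ)) * eE^p * AA3 (1/2)) := by
    refine ((Dr.A ?_).mul0 ((eE_int (p := p)).pow p)).mul0 (Dr.A (half_int' p3))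
    have := Dv.int (p := p) (-2 * (((p+3*i).choose (3*i) : ℕ) : ℤ))
    push_cast at this
    exact this
  refine Dr_eq ?_ (h1.add (h2.mul0 c1))
  ring

theorem half2 : (2:R3) * AA3 (1/2) = 1 := by
  have : (2:R3) = AA3 2 := (map_ofNat AA3 2).symm
  rw [this, ← map_mul]; norm_num

/-- the resolvent -/
theorem res_one (p3 : 3 < p) {i : ℕ} (hi : p = 6*i+1) (K4 : ℚ) (hK4 : K4 = -2 * (((p+3*i).choose (3*i) : ℕ) : ℚ)) :
    Dr p 2 (AA3 (4 - 2*K4*(eE^p).re) * cj (Sx tt (3*i+1) x1) - s3^(3*i) * cj (eE^(3*i)) *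
      (⟨6*3^(3*i)*(eE^p).im*FF (3*i+p) + 6*FF (3*i), 3^(3*i)*FF (3*i+p)*(K4-2*(eE^p).re) - 3*FF (3*i)*K4*(eE^p).im⟩ : R3)) := by
  have h1 := M_one' p3 hi
  rw [← hK4] at h1
  have kint : Dv p 0 K4 := by
    rw [hK4]
    have := Dv.int (p := p) (-2 * (((p+3*i).choose (3*i) : ℕ) : ℤ))
    push_cast at this
    exact this
  have hh : p = 2*(3*i)+1 := by omega
  rw [w_pow2 p (3*i) hh, w_pow (3*i), L_pow] at h1
  have h2 := h1.cj
  have hS : cj (cj (Sx tt (3*i+1) x1)) = Sx tt (3*i+1) x1 := by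
    ext
    · rw [cj_re, cj_re]
    · rw [cj_im, cj_im, neg_neg]
  set S := Sx tt (3*i+1) x1 with hSd
  have hq : cj (s3^(3*i)) = (-1)^(3*i) * s3^(3*i) := by rw [map_pow, cj_s3, neg_pow]
  simp only [map_sub, map_add, map_mul, map_neg, cj_A, cj_s3, cj_pow1, hq, hS, map_ofNat, map_pow (f := cj) (eE^(3*i)) 2] at h2
  set q := s3^(3*i) with hqd
  set Z := eE^(3*i) with hZ
  set Zb := cj Z with hZb
  set P := eE^p with hP
  set Pb := cj P with hPb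
  set ε := (-1:R3)^(3*i) with hε
  have hZZ : Z * Zb = 1 := cancel_e (3*i)
  have hPP : P * Pb = 1 := cancel_e p
  have hee : ε^2 = 1 := negone_sq (3*i)
  have hη := half2
  set η := AA3 (1/2) with hηd
  have ci1 : Dr p 0 (2 - AA3 K4 * η * P) := by
    have := (Dr.A (p := p) (Dv.nat (p := p) 2)).sub (((Dr.A (p := p) kint).mul0 (Dr.A (half_int' p3))).mul0 ((eE_int (p := p)).pow p))
    refine Dr_eq ?_ this
    rw [map_natCast]; push_cast; rfl
  have ci2 : Dr p 0 (AA3 K4 * η * Pb * (ε * Zb^2)) := by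
    have hZb0 : Dr p 0 Zb := ((eE_int (p := p)).pow (3*i)).cj
    have hPb0 : Dr p 0 Pb := ((eE_int (p := p)).pow p).cj
    have hε0 : Dr p 0 ε := ((Dr.one (p := p)).neg).pow (3*i)
    exact (((Dr.A (p := p) kint).mul0 (Dr.A (half_int' p3))).mul0 hPb0).mul0 (hε0.mul0 (hZb0.pow 2))
  have h3 := (h2.mul0 ci1).add (h1.mul0 ci2)
  refine Dr_eq ?_ h3
  have hX : P + Pb = 2 * AA3 P.re := by
    have a2 : (2:R3) = AA3 2 := (map_ofNat AA3 2).symm
    rw [hPb, a2]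
    ext
    · rw [QuadraticAlgebra.re_add, cj_re, QuadraticAlgebra.re_mul, A3_re, A3_im, A3_re, A3_im]; ring
    · rw [QuadraticAlgebra.im_add, cj_im, QuadraticAlgebra.im_mul, A3_re, A3_im, A3_re, A3_im]; ring
  have hY : P - Pb = 2 * AA3 P.im * s3 := by
    have a2 : (2:R3) = AA3 2 := (map_ofNat AA3 2).symm
    rw [hPb, a2, ← map_mul]
    unfold s3
    ext
    · rw [QuadraticAlgebra.re_sub, cj_re, QuadraticAlgebra.re_mul, A3_re, A3_im]; ring
    · rw [QuadraticAlgebra.im_sub, cj_im, QuadraticAlgebra.im_mul, A3_re, A3_im]; ring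
  have hab : (⟨6*3^(3*i)*P.im*FF (3*i+p) + 6*FF (3*i), 3^(3*i)*FF (3*i+p)*(K4-2*P.re) - 3*FF (3*i)*K4*P.im⟩ : R3) =
      6 * AA3 (3^(3*i)) * AA3 P.im * AA3 (FF (3*i+p)) + 6 * AA3 (FF (3*i)) + s3 * (AA3 (3^(3*i)) * AA3 (FF (3*i+p)) * (AA3 K4 - 2 * AA3 P.re) - 3 * AA3 (FF (3*i)) * AA3 K4 * AA3 P.im) := by
    have a2 : (2:R3) = AA3 2 := (map_ofNat AA3 2).symm
    have a3 : (3:R3) = AA3 3 := (map_ofNat AA3 3).symm
    have a6 : (6:R3) = AA3 6 := (map_ofNat AA3 6).symm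
    rw [a2, a3, a6]
    simp only [← map_mul, ← map_sub, ← map_add]
    unfold s3
    ext
    · rw [QuadraticAlgebra.re_add, QuadraticAlgebra.re_mul, A3_re, A3_re, A3_im]; ring
    · rw [QuadraticAlgebra.im_add, QuadraticAlgebra.im_mul, A3_re, A3_im, A3_im]; ring
  rw [hab]
  have hD : AA3 (4 - 2*K4*P.re) = 4 - AA3 K4 * (P + Pb) := by
    rw [hX, map_sub, map_mul, map_mul, map_ofNat, map_ofNat]; ring
  rw [hD]
  have hs := ss3
  rw [map_ofNat] at hs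
  have hLL : (ε*Z^2)*(ε*Zb^2) = 1 := by
    calc (ε*Z^2)*(ε*Zb^2) = ε^2 * (Z*Zb)^2 := by ring
      _ = 1 := by rw [hee, hZZ]; ring
  have hx : (ε*Zb^2)*ε*Z = Zb := by
    calc (ε*Zb^2)*ε*Z = ε^2 * (Z*Zb) * Zb := by ring
      _ = Zb := by rw [hee, hZZ]; ring
  generalize AA3 K4 = k at *
  generalize AA3 (3^(3*i)) = T3 at *
  generalize AA3 (FF (3*i+p)) = F' at *
  generalize AA3 (FF (3*i)) = F at *
  generalize AA3 P.re = X at *
  generalize AA3 P.im = Y at *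
  generalize cj S = cS at *
  linear_combination ((2 - k*η*P)*(T3*s3*q*Zb*Pb*F' - 3*q*Zb*F)) * hee + (-(k*(P+Pb)*cS) - k*T3*s3*F'*q*Zb + 3*q*Zb*F*k*Y*s3) * hη - (k^2*η^2*P*Pb*cS) * hLL - (k*η*Pb*q*(T3*s3*P*F'+3*F)) * hx - (2*k*η*T3*s3*F'*q*Zb) * hPP + (q*Zb*T3*F'*s3) * hX + (-(q*Zb*T3*F'*s3) + 3*η*F*k*q*Zb) * hY - (2*q*Zb*T3*F'*Y) * hs


end

end

end Pool.Agent.N926.Qd
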