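import Pool.Agent.N926.Qd.F

/-! the first sum modulo `p²` -/

set_option autoImplicit false
set_option linter.unusedVariables false
set_option linter.unusedSectionVars false

namespace Pool.Agent.N926.Qd

open Finset Pool.Agent.N926.Sup2 Pool.Agent.N926.Sup Pool.Agent.N926.F54 Pool.Agent.N926.F37 Pool.Agent.N926.Tri Pool.Agent.N926.Fib

noncomputable section

section
variable {p : ℕ} [hp : Fact p.Prime]

theorem two_h (p3 : 3 < p) {h : ℕ} (hh : p = 2*h+1) : ((legendreSym p 2 = 1 ∨ legendreSym p 2 = -1)) ∧ Dv p 1 ((2:ℚ)^h - (legendreSym p 2 : ℤ)) := by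
  have h0 : ((2:ℤ) : ZMod p) ≠ 0 := by
    intro h0
    rw [ZMod.intCast_zmod_eq_zero_iff_dvd] at h0
    have h1 : p ∣ 2 := by exact_mod_cast h0
    have := Nat.le_of_dvd (by norm_num) h1
    omega
  refine ⟨legendreSym.eq_one_or_neg_one p h0, ?_⟩
  have h1 := legendreSym.eq_pow p 2
  have h2 : p/2 = h := by omega
  rw [h2] at h1
  have h3 : (((2^h - legendreSym p 2 : ℤ)) : ZMod p) = 0 := by push_cast; rw [h1]; push_cast; ring
  have := Dv.of_zmod (p := p) h3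
  push_cast at this
  exact this

theorem Dv_div2 (p3 : 3 < p) {n : ℤ} {x : ℚ} (h : Dv p n (2*x)) : Dv p n x :=
  Dv_eq (by ring) (h.mul0 (half_int' (p := p) p3))
theorem Dv_div3 (p3 : 3 < p) {n : ℤ} {x : ℚ} (h : Dv p n (3*x)) : Dv p n x :=
  Dv_eq (by ring) (h.mul0 (third_int (p := p) p3))
theorem Dv_div12 (p3 : 3 < p) {n : ℤ} {x : ℚ} (h : Dv p n (12*x)) : Dv p n x :=
  Dv_div2 p3 (Dv_div2 p3 (Dv_div3 p3 (Dv_eq (by ring) h)))

theorem N1.solve12 (p3 : 3 < p) {D d z r0 r1 : ℚ} (hD : N1 p D 12 d) (hz : Dv p 0 z) (h : N1 p (D*z) r0 r1) :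
    N1 p z (r0/12) (r1/12 - d*r0/144) := by
  have q0 : Dv p 0 (r0/12) := Dv_div12 p3 (Dv_eq (by ring) h.2.1)
  have q1 : Dv p 0 (r1/12) := Dv_div12 p3 (Dv_eq (by ring) h.2.2)
  have q2 : Dv p 0 (d*r0/144) := Dv_div12 p3 (Dv_div12 p3 (Dv_eq (by ring) (hD.2.2.mul0 h.2.1)))
  have dp := Dv.p1 (p := p)
  have one_le : (1:ℤ) ≤ 2 := by norm_num
  -- first order
  have e1 : Dv p 1 (z - r0/12) := by
    refine Dv_div12 p3 ?_
    have a := (h.1.mono one_le).add (dp.mul0 h.2.2)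
    have b := ((hD.1.mono one_le).add (dp.mul0 hD.2.2)).mul0 hz
    refine Dv_eq ?_ (a.sub b)
    ring
  refine ⟨Dv_div12 p3 ?_, q0, q1.sub q2⟩
  have a := h.1.sub (hD.1.mul0 hz)
  have b := (dp.mul e1).mul0 hD.2.2
  refine Dv_eq ?_ (a.sub b)
  ring

theorem ePow (h : ℕ) (hh : p = 2*h+1) : (eE^p).re = 2*((eE^h).re^2 + 3*(eE^h).im^2) + 6*((eE^h).re*(eE^h).im) ∧
    (eE^p).im = (eE^h).re^2 + 3*(eE^h).im^2 + 4*((eE^h).re*(eE^h).im) := by
  have e : eE^p = (eE^h * eE^h) * eE := by rw [hh, pow_succ]; congr 1; rw [← pow_add]; congr 1; ring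
  rw [e]
  simp only [QuadraticAlgebra.re_mul, QuadraticAlgebra.im_mul]
  have a : eE.re = 2 := rfl
  have b : eE.im = 1 := rfl
  rw [a, b]
  constructor <;> ring

theorem UV_int (h : ℕ) : Dv p 0 (eE^h).re ∧ Dv p 0 (eE^h).im := (eE_int (p := p)).pow h

/-- even case: the values of `E^h` -/
theorem UV_even (p3 : 3 < p) {h : ℕ} (hh : p = 2*h+1) (h3 : Dv p 1 ((3:ℚ)^h - 1)) :
    Dv p 1 (eE^h).im ∧ Dv p 2 ((eE^h).re - (legendreSym p 2 : ℤ)) := by
  obtain ⟨hl, h2⟩ := two_h (p := p) p3 hh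
  set l : ℚ := ((legendreSym p 2 : ℤ) : ℚ) with hld
  have ll : l^2 = 1 := by rcases hl with h | h <;> rw [hld, h] <;> norm_num
  have l0 : Dv p 0 l := Dv.int _
  obtain ⟨a, b⟩ := EH (p := p) (by omega) hh
  obtain ⟨U0, V0⟩ := UV_int (p := p) h
  have hn := eE_norm h
  set U := (eE^h).re
  set V := (eE^h).im
  -- l (U + 3V) ≡ 1
  have a1 : Dv p 1 (U + 3*V - l) := by
    have := (a.sub (h2.mul0 (U0.add (V0.mul0 (Dv.int (p := p) 3))))).mul0 l0
    refine Dv_eq ?_ this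
    push_cast
    linear_combination (U + 3*V) * ll
  have b1 : Dv p 1 (U + V - l) := by
    have := ((b.sub (h2.mul0 (U0.add V0))).add h3).mul0 l0
    refine Dv_eq ?_ this
    linear_combination (U + V) * ll
  have hV : Dv p 1 V := Dv_div2 p3 (Dv_eq (by ring) (a1.sub b1))
  have hU : Dv p 1 (U - l) := Dv_eq (by ring) (b1.sub hV)
  refine ⟨hV, ?_⟩
  have hq := (((hV.mul hV).mul0 (Dv.int (p := p) 3)).sub (hU.mul hU)).mul0 l0
  refine Dv_div2 p3 (Dv_eq ?_ hq)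
  push_cast
  linear_combination (-l) * hn + (2*U-l) * ll

/-- odd case -/
theorem UV_odd (p3 : 3 < p) {h : ℕ} (hh : p = 2*h+1) (h3 : Dv p 1 ((3:ℚ)^h + 1)) :
    ∃ w : ℚ, Dv p 0 w ∧ (eE^h).im = (legendreSym p 2 : ℤ) + p * (2*(legendreSym p 2 : ℤ)*w) ∧
      Dv p 2 ((eE^h).re - (-2*(legendreSym p 2 : ℤ) + p*(-3*(legendreSym p 2 : ℤ)*w))) := by
  obtain ⟨hl, h2⟩ := two_h (p := p) p3 hh
  set l : ℚ := ((legendreSym p 2 : ℤ) : ℚ) with hld
  have ll : l^2 = 1 := by rcases hl with h | h <;> rw [hld, h] <;> norm_num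
  have l0 : Dv p 0 l := Dv.int _
  obtain ⟨a, b⟩ := EH (p := p) (by omega) hh
  obtain ⟨U0, V0⟩ := UV_int (p := p) h
  have hn := eE_norm h
  set U := (eE^h).re
  set V := (eE^h).im
  have p0 : (p:ℚ) ≠ 0 := by exact_mod_cast hp.out.ne_zero
  have a1 : Dv p 1 (U + 3*V - l) := by
    have := (a.sub (h2.mul0 (U0.add (V0.mul0 (Dv.int (p := p) 3))))).mul0 l0
    refine Dv_eq ?_ this
    push_cast
    linear_combination (U + 3*V) * ll
  have b1 : Dv p 1 (U + V + l) := by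
    have := ((b.sub (h2.mul0 (U0.add V0))).add h3).mul0 l0
    refine Dv_eq ?_ this
    linear_combination (U + V) * ll
  have hV : Dv p 1 (V - l) := Dv_div2 p3 (Dv_eq (by ring) (a1.sub b1))
  have hU : Dv p 1 (U + 2*l) := Dv_eq (by ring) (b1.sub hV)
  refine ⟨(l*V-1)/(2*p), ?_, ?_, ?_⟩
  · refine Dv_div2 p3 ?_
    refine Dv.of_p_mul (n := 1) ?_
    have := hV.mul0 l0
    refine Dv_eq ?_ this
    field_simp
    linear_combination (-1:ℚ) * ll
  · field_simp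
    linear_combination (-V) * ll
  · -- 4 l (U+2l) ≡ -12 w p
    have hw : Dv p 1 (l*V-1) := Dv_eq (by linear_combination (-1:ℚ) * ll) (hV.mul0 l0)
    have hq := ((hU.mul hU).sub ((hw.mul hw).mul0 (Dv.int (p := p) 3))).mul0 l0
    refine Dv_div2 p3 (Dv_div2 p3 (Dv_eq ?_ hq))
    have e : (p:ℚ) * (-3*l*((l*V-1)/(2*p))) = -3*l*(l*V-1)/2 := by field_simp
    rw [e]
    push_cast
    linear_combination l*hn + (4*U+4*l*2-4*l) * ll - (3*l*V^2)*ll
end

end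

end Pool.Agent.N926.Qd
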