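import Pool.Agent.N926.Qd.G

/-! the first sum modulo `p²` -/

set_option autoImplicit false
set_option linter.unusedVariables false
set_option linter.unusedSectionVars false

namespace Pool.Agent.N926.Qd

open Finset Pool.Agent.N926.Sup2 Pool.Agent.N926.Sup Pool.Agent.N926.F54 Pool.Agent.N926.F37 Pool.Agent.N926.Tri Pool.Agent.N926.Fib

noncomputable section

theorem s3_even (j : ℕ) : s3^(2*j) = AA3 (3^j) := by
  rw [pow_mul, ss3, ← map_pow]

section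
variable {p : ℕ} [hp : Fact p.Prime]

theorem comp_even (h j : ℕ) (hj : h = 2*j) (D a b : ℚ) (S : R3)
    (hr : Dr p 2 (AA3 D * cj S - s3^h * cj (eE^h) * (⟨a,b⟩ : R3))) :
    Dv p 2 (D * S.im + 3^j*((eE^h).re*b - (eE^h).im*a)) := by
  have e : s3^h = AA3 (3^j) := by rw [hj]; exact s3_even j
  rw [e] at hr
  refine Dv_eq ?_ hr.2.neg
  simp only [QuadraticAlgebra.im_sub, QuadraticAlgebra.im_mul, QuadraticAlgebra.re_mul, cj_re, cj_im, A3_re, A3_im]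
  ring

theorem comp_odd (h j : ℕ) (hj : h = 2*j+1) (D a b : ℚ) (S : R3)
    (hr : Dr p 2 (AA3 D * cj S - s3^h * cj (eE^h) * (⟨a,b⟩ : R3))) :
    Dv p 2 (D * S.re - 3^j*(3*((eE^h).re*b - (eE^h).im*a))) ∧ Dv p 2 (D * S.im + 3^j*((eE^h).re*a - 3*((eE^h).im*b))) := by
  have e : s3^h = AA3 (3^j) * s3 := by rw [hj]; exact s3_pow j
  rw [e] at hr
  have r1 : s3.re = 0 := rfl
  have r2 : s3.im = 1 := rfl
  constructor
  · refine Dv_eq ?_ hr.1
    simp only [QuadraticAlgebra.re_sub, QuadraticAlgebra.im_mul, QuadraticAlgebra.re_mul, cj_re, cj_im, A3_re, A3_im, r1, r2]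
    ring
  · refine Dv_eq ?_ hr.2.neg
    simp only [QuadraticAlgebra.im_sub, QuadraticAlgebra.im_mul, QuadraticAlgebra.re_mul, cj_re, cj_im, A3_re, A3_im, r1, r2]
    ring

theorem S_int (p3 : 3 < p) (N : ℕ) : Dr p 0 (Sx tt N x1) := Sx_dr _ _ _ _ x1_int fun k _ => tt_int (by omega) k

theorem N1.cong {z z' a b : ℚ} (h : N1 p z a b) (hz : Dv p 2 (z' - z)) : N1 p z' a b :=
  ⟨Dv_eq (by ring) (h.1.add hz), h.2.1, h.2.2⟩

/-- part (b) -/
theorem first_even (p3 : 3 < p) {i : ℕ} (hi : p = 6*i+1) (i1 : 1 ≤ i) (hev : i % 2 = 0) : Dv p 2 (Sx tt (3*i+1) x1).im := by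
  have D := mkData p3 hi i1
  set f := CC i
  set x2 := Hs 1 (2*i)
  set x3 := Hs 1 (3*i)
  have hh : p = 2*(3*i)+1 := by omega
  have hs1 : ((-1:ℚ)^i) = 1 := Even.neg_one_pow ⟨i/2, by omega⟩
  have hth := D.th
  rw [hs1] at hth
  have dp := Dv.p1 (p := p)
  have one_le : (1:ℤ) ≤ 2 := by norm_num
  have h31 : Dv p 1 ((3:ℚ)^(3*i) - 1) := by
    refine Dv_eq ?_ ((hth.1.mono one_le).add (dp.mul0 hth.2.2))
    ring
  obtain ⟨hV1, hU2⟩ := UV_even (p := p) p3 hh h31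
  obtain ⟨hl, -⟩ := two_h (p := p) p3 hh
  obtain ⟨eX, eY⟩ := ePow (p := p) (3*i) hh
  obtain ⟨j, hj⟩ : ∃ j, 3*i = 2*j := ⟨3*i/2, by omega⟩
  have hres := comp_even (p := p) (3*i) j hj _ _ _ _ (res_one p3 hi _ rfl)
  set K4 := -2 * (((p+3*i).choose (3*i) : ℕ) : ℚ)
  set l : ℚ := ((legendreSym p 2 : ℤ) : ℚ) with hld
  have ll : l^2 = 1 := by rcases hl with h | h <;> rw [hld, h] <;> norm_num
  have l0 : Dv p 0 l := Dv.int _
  set U := (eE^(3*i)).re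
  set V := (eE^(3*i)).im
  set X := (eE^p).re
  set Y := (eE^p).im
  have p0 : (p:ℚ) ≠ 0 := by exact_mod_cast hp.out.ne_zero
  obtain ⟨v, hv⟩ : ∃ v, V = p*v := ⟨V/p, by field_simp⟩
  have v0 : Dv p 0 v := Dv.of_p_mul (n := 1) (Dv_eq (by rw [hv]; ring) hV1)
  have nU : N1 p U l 0 := ⟨Dv_eq (by ring) hU2, l0, Dv.zero _⟩
  have nV : N1 p V 0 v := ⟨Dv_eq (by rw [hv]; ring) (Dv.zero (p := p) 2), Dv.zero _, v0⟩
  have nX : N1 p X 2 (6*l*v) := by
    have := ((N1.intc (p := p) 2).mul ((nU.mul nU).add ((N1.intc 3).mul (nV.mul nV)))).add ((N1.intc 6).mul (nU.mul nV))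
    refine this.congr ?_ ?_ ?_
    · rw [eX]; push_cast; ring
    · push_cast; linear_combination 2*ll
    · push_cast; ring
  have nY : N1 p Y 1 (4*l*v) := by
    have := ((nU.mul nU).add ((N1.intc 3).mul (nV.mul nV))).add ((N1.intc 4).mul (nU.mul nV))
    refine this.congr ?_ ?_ ?_
    · rw [eY]; push_cast; ring
    · push_cast; linear_combination ll
    · push_cast; ring
  have n3 : N1 p (3^(3*i)) 1 (-x2/3) := hth.congr rfl rfl (by ring)
  have nD : N1 p (4 - 2*K4*X) 12 (24*l*v + 8*x3) := by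
    have := (N1.intc (p := p) 4).sub ((N1.intc 2).mul (D.K4.mul nX))
    refine this.congr ?_ ?_ ?_
    · push_cast; ring
    · push_cast; ring
    · push_cast; ring
  have nb : N1 p (3^(3*i)*FF (3*i+p)*(K4-2*X) - 3*FF (3*i)*K4*Y) 0 (12*l*v*f) := by
    have := ((n3.mul D.F1).mul (D.K4.sub ((N1.intc 2).mul nX))).sub ((N1.intc 3).mul (D.F0.mul (D.K4.mul nY)))
    refine this.congr ?_ ?_ ?_
    · push_cast; ring
    · push_cast; ring
    · push_cast; ring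
  obtain ⟨a1, na⟩ : ∃ a1, N1 p (6*3^(3*i)*Y*FF (3*i+p) + 6*FF (3*i)) (12*f) a1 := by
    have := (N1.intc (p := p) 6).mul (((n3.mul nY).mul D.F1).add D.F0)
    refine ⟨_, this.congr ?_ ?_ rfl⟩
    · push_cast; ring
    · push_cast; ring
  have nE := (nU.mul nb).sub (nV.mul na)
  have zE : Dv p 2 (U * (3^(3*i)*FF (3*i+p)*(K4-2*X) - 3*FF (3*i)*K4*Y) - V * (6*3^(3*i)*Y*FF (3*i+p) + 6*FF (3*i))) := by
    refine (nE.congr rfl ?_ ?_).zero
    · ring
    · linear_combination (12*v*f)*ll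
  have c3j : Dv p 0 ((3:ℚ)^j) := by
    have := Dv.nat (p := p) (3^j)
    push_cast at this; exact this
  have hD : Dv p 2 ((4-2*K4*X) * (Sx tt (3*i+1) x1).im) := by
    refine Dv_eq ?_ (hres.sub (zE.mul0 c3j))
    ring
  have hDz : N1 p ((4-2*K4*X) * (Sx tt (3*i+1) x1).im) 0 0 := ⟨Dv_eq (by ring) hD, Dv.zero _, Dv.zero _⟩
  have := nD.solve12 p3 (S_int p3 (3*i+1)).2 hDz
  refine (this.congr rfl ?_ ?_).zero <;> ring

/-- part (a): the values of the first sum -/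
theorem first_odd (p3 : 3 < p) {i : ℕ} (hi : p = 6*i+1) (i1 : 1 ≤ i) (hodd : i % 2 = 1) {j : ℕ} (hj : 3*i = 2*j+1) :
    N1 p (Sx tt (3*i+1) x1).im (2*((legendreSym p 2 : ℤ)*3^j)*CC i) (((legendreSym p 2 : ℤ)*3^j)*CC i*(4/3*Hs 1 (2*i) - 2/3*Hs 1 (3*i))) ∧
    N1 p (Sx tt (3*i+1) x1).re (-3*((legendreSym p 2 : ℤ)*3^j)*CC i) (((legendreSym p 2 : ℤ)*3^j)*CC i*(-2*Hs 1 (2*i) + Hs 1 (3*i))) ∧
    (Dv p 1 ((eE^(3*i)).re + 2*(legendreSym p 2 : ℤ)) ∧ Dv p 1 ((eE^(3*i)).im - (legendreSym p 2 : ℤ))) ∧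
    (Dv p 1 ((eE^p).re - 2) ∧ Dv p 1 ((eE^p).im + 1)) := by
  have D := mkData p3 hi i1
  set f := CC i
  set x2 := Hs 1 (2*i)
  set x3 := Hs 1 (3*i)
  have hh : p = 2*(3*i)+1 := by omega
  have hs1 : ((-1:ℚ)^i) = -1 := Odd.neg_one_pow ⟨i/2, by omega⟩
  have hth := D.th
  rw [hs1] at hth
  have dp := Dv.p1 (p := p)
  have one_le : (1:ℤ) ≤ 2 := by norm_num
  have h31 : Dv p 1 ((3:ℚ)^(3*i) + 1) := by
    refine Dv_eq ?_ ((hth.1.mono one_le).add (dp.mul0 hth.2.2))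
    ring
  obtain ⟨w, w0, hVe, hUe⟩ := UV_odd (p := p) p3 hh h31
  obtain ⟨hl, -⟩ := two_h (p := p) p3 hh
  obtain ⟨eX, eY⟩ := ePow (p := p) (3*i) hh
  obtain ⟨hres1, hres2⟩ := comp_odd (p := p) (3*i) j hj _ _ _ _ (res_one p3 hi _ rfl)
  set K4 := -2 * (((p+3*i).choose (3*i) : ℕ) : ℚ)
  set l : ℚ := ((legendreSym p 2 : ℤ) : ℚ) with hld
  have ll : l^2 = 1 := by rcases hl with h | h <;> rw [hld, h] <;> norm_num
  have l0 : Dv p 0 l := Dv.int _
  have c2 : Dv p 0 (2:ℚ) := by have := Dv.nat (p := p) 2; push_cast at this; exact this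
  have c3 : Dv p 0 (3:ℚ) := by have := Dv.nat (p := p) 3; push_cast at this; exact this
  set U := (eE^(3*i)).re
  set V := (eE^(3*i)).im
  set X := (eE^p).re
  set Y := (eE^p).im
  have nU : N1 p U (-2*l) (-3*l*w) := ⟨hUe, Dv_eq (by ring) (c2.mul0 l0).neg, Dv_eq (by ring) ((c3.mul0 l0).mul0 w0).neg⟩
  have nV : N1 p V l (2*l*w) := ⟨Dv_eq (by rw [hVe]; ring) (Dv.zero (p := p) 2), l0, (c2.mul0 l0).mul0 w0⟩
  have nX : N1 p X 2 (6*w) := by
    have := ((N1.intc (p := p) 2).mul ((nU.mul nU).add ((N1.intc 3).mul (nV.mul nV)))).add ((N1.intc 6).mul (nU.mul nV))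
    refine this.congr ?_ ?_ ?_
    · rw [eX]; push_cast; ring
    · push_cast; linear_combination 2*ll
    · push_cast; linear_combination 6*w*ll
  have nY : N1 p Y (-1) (-4*w) := by
    have := ((nU.mul nU).add ((N1.intc 3).mul (nV.mul nV))).add ((N1.intc 4).mul (nU.mul nV))
    refine this.congr ?_ ?_ ?_
    · rw [eY]; push_cast; ring
    · push_cast; linear_combination (-1:ℚ)*ll
    · push_cast; linear_combination (-4*w)*ll
  have n3 : N1 p (3^(3*i)) (-1) (x2/3) := hth.congr rfl rfl (by ring)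
  have nD : N1 p (4 - 2*K4*X) 12 (24*w + 8*x3) := by
    have := (N1.intc (p := p) 4).sub ((N1.intc 2).mul (D.K4.mul nX))
    refine this.congr ?_ ?_ ?_
    · push_cast; ring
    · push_cast; ring
    · push_cast; ring
  have nb : N1 p (3^(3*i)*FF (3*i+p)*(K4-2*X) - 3*FF (3*i)*K4*Y) 0 (-12*w*f) := by
    have := ((n3.mul D.F1).mul (D.K4.sub ((N1.intc 2).mul nX))).sub ((N1.intc 3).mul (D.F0.mul (D.K4.mul nY)))
    refine this.congr ?_ ?_ ?_
    · push_cast; ring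
    · push_cast; ring
    · push_cast; ring
  have na : N1 p (6*3^(3*i)*Y*FF (3*i+p) + 6*FF (3*i)) (12*f) (f*(24*w+8*x2+4*x3)) := by
    have := (N1.intc (p := p) 6).mul (((n3.mul nY).mul D.F1).add D.F0)
    refine this.congr ?_ ?_ ?_
    · push_cast; ring
    · push_cast; ring
    · push_cast; ring
  have n3j : N1 p ((3:ℚ)^j) (3^j) 0 := by
    have := Dv.nat (p := p) (3^j)
    push_cast at this
    exact N1.const this
  have nE1 := ((nU.mul na).sub ((N1.intc 3).mul (nV.mul nb))).mul n3j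
  have nE2 := ((N1.intc 3).mul ((nU.mul nb).sub (nV.mul na))).mul n3j
  have nI : N1 p ((4-2*K4*X) * (Sx tt (3*i+1) x1).im) (24*(l*3^j)*f) (l*3^j*f*(48*w+16*x2+8*x3)) := by
    refine ((nE1.neg).congr (a' := 24*(l*3^j)*f) (b' := l*3^j*f*(48*w+16*x2+8*x3)) rfl (by push_cast; ring) (by push_cast; ring)).cong ?_
    refine Dv_eq ?_ hres2
    push_cast
    ring
  have nR : N1 p ((4-2*K4*X) * (Sx tt (3*i+1) x1).re) (-36*(l*3^j)*f) (-(l*3^j*f*(72*w+24*x2+12*x3))) := by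
    refine (nE2.congr (a' := -36*(l*3^j)*f) (b' := -(l*3^j*f*(72*w+24*x2+12*x3))) rfl (by push_cast; ring) (by push_cast; ring)).cong ?_
    refine Dv_eq ?_ hres1
    push_cast
    ring
  refine ⟨?_, ?_, ⟨?_, ?_⟩, ?_, ?_⟩
  · exact (nD.solve12 p3 (S_int p3 (3*i+1)).2 nI).congr rfl (by ring) (by ring)
  · exact (nD.solve12 p3 (S_int p3 (3*i+1)).1 nR).congr rfl (by ring) (by ring)
  · refine Dv_eq ?_ ((nU.1.mono one_le).add (dp.mul0 nU.2.2))
    ring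
  · refine Dv_eq ?_ ((nV.1.mono one_le).add (dp.mul0 nV.2.2))
    ring
  · refine Dv_eq ?_ ((nX.1.mono one_le).add (dp.mul0 nX.2.2))
    ring
  · refine Dv_eq ?_ ((nY.1.mono one_le).add (dp.mul0 nY.2.2))
    ring

end

end

end Pool.Agent.N926.Qd
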