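import Pool.Agent.N926.Qd.H

/-! the weighted sum -/

set_option autoImplicit false
set_option linter.unusedVariables false
set_option linter.unusedSectionVars false

namespace Pool.Agent.N926.Qd

open Finset Pool.Agent.N926.Sup2 Pool.Agent.N926.Sup Pool.Agent.N926.F54 Pool.Agent.N926.F37 Pool.Agent.N926.Tri Pool.Agent.N926.Fib

noncomputable section

def nu : R3 := ⟨2,-2/3⟩

theorem nu_r : nu = 2 + w1*v1 := by
  have a2 : (2:R3) = AA3 2 := (map_ofNat AA3 2).symm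
  rw [a2]
  unfold nu w1 v1
  ext
  · rw [QuadraticAlgebra.re_add, QuadraticAlgebra.re_mul, A3_re]; simp; norm_num
  · rw [QuadraticAlgebra.im_add, QuadraticAlgebra.im_mul, A3_im]; simp; norm_num
theorem nu_u : nu = u1 * cj nu + cj x1 := by
  unfold nu u1 x1
  ext
  · rw [QuadraticAlgebra.re_add, QuadraticAlgebra.re_mul, cj_re, cj_re, cj_im]; norm_num
  · rw [QuadraticAlgebra.im_add, QuadraticAlgebra.im_mul, cj_re, cj_im, cj_im]; norm_num
theorem uu1 : u1 * cj u1 = 1 := by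
  unfold u1
  ext
  · rw [QuadraticAlgebra.re_mul, cj_re, cj_im, QuadraticAlgebra.re_one]; norm_num
  · rw [QuadraticAlgebra.im_mul, cj_re, cj_im, QuadraticAlgebra.im_one]; norm_num
theorem cjcj (z : R3) : cj (cj z) = z := by
  ext
  · rw [cj_re, cj_re]
  · rw [cj_im, cj_im, neg_neg]

section
variable {p : ℕ} [hp : Fact p.Prime]

theorem u1_int : Dr p 0 u1 := by
  have := Dr.ints (p := p) (-7) 4
  unfold u1
  push_cast at this
  exact this

theorem nu_int (p3 : 3 < p) : Dr p 0 nu := by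
  unfold nu
  refine ⟨?_, ?_⟩
  · have := Dv.int (p := p) 2; push_cast at this; exact this
  · have := (third_int (p := p) p3).mul0 (Dv.int (p := p) (-2))
    refine Dv_eq ?_ this
    push_cast; ring

theorem M_two (p3 : 3 < p) {i : ℕ} (hi : p = 6*i+1) :
    Dr p 2 ((1-w1)^(3*i+p) * (AA3 (2*(((3*i+p : ℕ):ℚ)*FF (3*i+p) - LL (3*i+p))) - AA3 (2*LL (3*i+p) - ((3*i+p : ℕ):ℚ)*FF (3*i+p)) * (w1*v1))
      - 3 * ((1-w1)^(3*i) * (AA3 (2*(((3*i : ℕ):ℚ)*FF (3*i) - LL (3*i))) - AA3 (2*LL (3*i) - ((3*i : ℕ):ℚ)*FF (3*i)) * (w1*v1)))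
      + 2 * Sx (fun k => k * tt k) (3*i+1) x1 -
      AA3 (-2 * (((p+3*i).choose (3*i) : ℕ) : ℚ)) * eE^p * (AA3 (1/2) * (AA3 p * (Sx tt (3*i+1) x1 + Sx (pbf (3*i)) (3*i+1) x1) +
        Sx (fun k => k * tt k) (3*i+1) x1 + Sx (fun k => k * pbf (3*i) k) (3*i+1) x1))) := by
  have hh : p = 2*(3*i)+1 := by omega
  have hK := K_int (p := p) (by omega) (3*i) hh
  have h1 := master p3 hh hK (fun n => (n:ℚ)) (fun n => Dv.nat n)
  rw [kx (3*i) hh] at h1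
  rw [← GGt_eq (3*i+p) (fun j hj => gg_hyp2 hi hj), ← GGt_eq (3*i) (fun j _ => gg_hyp hi)]
  have e : Sx (fun n => ((p+n : ℕ):ℚ) * ((tt n + pbf (3*i) n)/2)) (3*i+1) x1 = AA3 (1/2) * (AA3 p * (Sx tt (3*i+1) x1 + Sx (pbf (3*i)) (3*i+1) x1) +
        Sx (fun k => k * tt k) (3*i+1) x1 + Sx (fun k => k * pbf (3*i) k) (3*i+1) x1) := by
    unfold Sx
    rw [← sum_add_distrib, mul_sum, ← sum_add_distrib, ← sum_add_distrib, mul_sum]
    refine sum_congr rfl fun n _ => ?_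
    have e2 : AA3 (((p+n : ℕ):ℚ) * ((tt n + pbf (3*i) n)/2)) = AA3 (1/2) * (AA3 p * (AA3 (tt n) + AA3 (pbf (3*i) n)) + AA3 (n * tt n) + AA3 (n * pbf (3*i) n)) := by
      rw [← map_add, ← map_mul, ← map_add, ← map_add, ← map_mul]; congr 1; push_cast; ring
    show AA3 (((p+n : ℕ):ℚ) * ((tt n + pbf (3*i) n)/2)) * x1^n = _
    rw [e2]; ring
  rw [e] at h1
  exact h1

theorem P_theta' (h2 : p ≠ 2) {h : ℕ} (hh : p = 2*h+1) :
    Dr p 2 (Sx (fun k => k * pbf h k) (h+1) x1 - (1-x1)^h * (u1 * cj (Sx (fun k => k * tt k) (h+1) x1) + AA3 h * cj x1 * cj (Sx tt (h+1) x1))) := by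
  have h1 := (P_theta h2 hh).cj
  have h3 := P_one' h2 hh
  have hL := LLb h
  have c1 : Dr p 0 ((1-x1)^h * u1) := (L_int h).mul0 u1_int
  have c2 : Dr p 0 (AA3 h * cj x1) := (Dr.A (Dv.nat h)).mul0 (x1_int (p := p)).cj
  refine Dr_eq ?_ (((h1.mul0 c1).neg).add (h3.mul0 c2))
  simp only [map_sub, map_mul, cjcj, cj_A]
  have hu := uu1
  generalize Sx (fun k => k * pbf h k) (h+1) x1 = Tb at *
  generalize Sx (fun k => k * tt k) (h+1) x1 = T at *
  generalize Sx (pbf h) (h+1) x1 = Sb at *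
  generalize Sx tt (h+1) x1 = S at *
  generalize cj ((1-x1)^h) = Lb at *
  generalize (1-x1)^h = L at *
  linear_combination (Tb - AA3 h * cj x1 * Sb) * L * Lb * hu + (Tb - AA3 h * cj x1 * Sb) * hL

/-- the relation for `σ = T - h ν S` -/
theorem theta_main (p3 : 3 < p) {i : ℕ} (hi : p = 6*i+1) (σ : R3)
    (hσ : σ = Sx (fun k => k * tt k) (3*i+1) x1 - AA3 ((3*i:ℕ):ℚ) * nu * Sx tt (3*i+1) x1) :
    Dr p 2 (AA3 p * nu * ((1-w1)^(3*i+p) * AA3 (FF (3*i+p))) - 2 * (1 + w1*v1) * ((1-w1)^(3*i+p) * AA3 (LL (3*i+p))) + 2 * σ -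
      AA3 (-2 * (((p+3*i).choose (3*i) : ℕ) : ℚ)) * eE^p * (AA3 (1/2) * (AA3 p * (Sx tt (3*i+1) x1 + (1-x1)^(3*i) * cj (Sx tt (3*i+1) x1)) +
        σ + (1-x1)^(3*i) * u1 * cj σ))) := by
  have hh : p = 2*(3*i)+1 := by omega
  have h1 := M_one p3 hi
  have h2 := M_two p3 hi
  have h3 := P_one' (p := p) (by omega) hh
  have h4 := P_theta' (p := p) (by omega) hh
  have c0 : Dr p 0 (AA3 (-2 * (((p+3*i).choose (3*i) : ℕ) : ℚ)) * eE^p * AA3 (1/2)) := by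
    refine ((Dr.A ?_).mul0 ((eE_int (p := p)).pow p)).mul0 (Dr.A (half_int' p3))
    have := Dv.int (p := p) (-2 * (((p+3*i).choose (3*i) : ℕ) : ℤ))
    push_cast at this
    exact this
  have c1 : Dr p 0 (AA3 ((3*i:ℕ):ℚ) * nu) := (Dr.A (Dv.nat _)).mul0 (nu_int p3)
  have c2 : Dr p 0 (AA3 (p:ℚ)) := Dr.A (Dv.nat _)
  have h5 := (h2.sub (h1.mul0 c1)).add ((((h3.mul0 c2).add h4).sub (h3.mul0 c1)).mul0 c0)
  refine Dr_eq ?_ h5
  rw [hσ, LL0 i]
  generalize AA3 (-2 * (((p+3*i).choose (3*i) : ℕ) : ℚ)) = k at *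
  simp only [map_sub, map_mul, cj_A, Nat.cast_add, map_add, mul_zero, zero_sub, sub_zero, map_neg, map_ofNat]
  have hu := nu_u
  have hr := nu_r
  generalize Sx (fun k => k * pbf (3*i) k) (3*i+1) x1 = Tb at *
  generalize Sx (fun k => k * tt k) (3*i+1) x1 = T at *
  generalize Sx (pbf (3*i)) (3*i+1) x1 = Sb at *
  generalize Sx tt (3*i+1) x1 = S at *
  generalize (1-x1)^(3*i) = L at *
  generalize (1-w1)^(3*i+p) = B at *
  generalize (1-w1)^(3*i) = B0 at *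
  generalize AA3 (FF (3*i+p)) = F' at *
  generalize AA3 (FF (3*i)) = F at *
  generalize AA3 (LL (3*i+p)) = l' at *
  generalize AA3 (1/2) = η at *
  generalize AA3 ((3*i:ℕ):ℚ) = hn at *
  generalize AA3 (p:ℚ) = pn at *
  generalize cj S = cS at *
  linear_combination (-(hn+pn)*F'*B + 3*hn*B0*F) * hr + (k*eE^p*η*L*hn*cS) * hu

end

end

end Pool.Agent.N926.Qd
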