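import Pool.Agent.N926.Qd.I

/-! the weighted sum modulo `p²` -/

set_option autoImplicit false
set_option linter.unusedVariables false
set_option linter.unusedSectionVars false

namespace Pool.Agent.N926.Qd

open Finset Pool.Agent.N926.Sup2 Pool.Agent.N926.Sup Pool.Agent.N926.F54 Pool.Agent.N926.F37 Pool.Agent.N926.Tri Pool.Agent.N926.Fib

noncomputable section

/-- `z ≡ z0 (mod p)` in `ℤ_(p)[√3]` -/
def E1 (p : ℕ) (z z0 : R3) : Prop := Dr p 1 (z - z0) ∧ Dr p 0 z0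

section
variable {p : ℕ} [hp : Fact p.Prime]

theorem E1.int {z z0 : R3} (h : E1 p z z0) : Dr p 0 z :=
  Dr_eq (by ring) ((h.1.mono (show (0:ℤ) ≤ 1 by norm_num)).add h.2)
theorem E1.add {z z0 y y0 : R3} (h : E1 p z z0) (g : E1 p y y0) : E1 p (z+y) (z0+y0) :=
  ⟨Dr_eq (by ring) (h.1.add g.1), h.2.add g.2⟩
theorem E1.neg {z z0 : R3} (h : E1 p z z0) : E1 p (-z) (-z0) := ⟨Dr_eq (by ring) h.1.neg, h.2.neg⟩
theorem E1.sub {z z0 y y0 : R3} (h : E1 p z z0) (g : E1 p y y0) : E1 p (z-y) (z0-y0) :=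
  ⟨Dr_eq (by ring) (h.1.sub g.1), h.2.sub g.2⟩
theorem E1.mul {z z0 y y0 : R3} (h : E1 p z z0) (g : E1 p y y0) : E1 p (z*y) (z0*y0) :=
  ⟨Dr_eq (by ring) ((h.1.mul0 g.int).add (g.1.mul0 h.2)), h.2.mul0 g.2⟩
theorem E1.cj {z z0 : R3} (h : E1 p z z0) : E1 p (cj z) (cj z0) := ⟨Dr_eq (by rw [map_sub]) h.1.cj, h.2.cj⟩
theorem E1.const {z : R3} (h : Dr p 0 z) : E1 p z z := ⟨Dr_eq (by ring) (Dr.zero (p := p) 1), h⟩
theorem E1.cong {z z0 y y0 : R3} (h : E1 p z z0) (h1 : z = y) (h2 : z0 = y0) : E1 p y y0 := by rw [← h1, ← h2]; exact h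
theorem E1.A {a b : ℚ} (h : Dv p 1 (a - b)) (hb : Dv p 0 b) : E1 p (AA3 a) (AA3 b) :=
  ⟨Dr_eq (by rw [map_sub]) (Dr.A h), Dr.A hb⟩
theorem E1.mk' {z : R3} {a b : ℚ} (h1 : Dv p 1 (z.re - a)) (h2 : Dv p 1 (z.im - b)) (ha : Dv p 0 a) (hb : Dv p 0 b) : E1 p z ⟨a,b⟩ :=
  ⟨⟨h1, h2⟩, ⟨ha, hb⟩⟩

theorem N1.one1 {z a b : ℚ} (h : N1 p z a b) : Dv p 1 (z - a) :=
  Dv_eq (by ring) ((h.1.mono (show (1:ℤ) ≤ 2 by norm_num)).add ((Dv.p1 (p := p)).mul0 h.2.2))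

theorem sys_comp {n : ℤ} {σ z : R3} (h : Dr p n ((⟨4,-1⟩:R3) * σ + (⟨362,-209⟩:R3) * cj σ - z)) :
    Dv p n (366*σ.re + 624*σ.im - z.re) ∧ Dv p n (-210*σ.re - 358*σ.im - z.im) := by
  constructor
  · refine Dv_eq ?_ h.1
    simp only [QuadraticAlgebra.re_sub, QuadraticAlgebra.re_add, QuadraticAlgebra.re_mul, cj_re, cj_im]
    ring
  · refine Dv_eq ?_ h.2
    simp only [QuadraticAlgebra.im_sub, QuadraticAlgebra.im_add, QuadraticAlgebra.im_mul, cj_re, cj_im]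
    ring

theorem sys_solve (p3 : 3 < p) {n : ℤ} {σ z : R3} (h : Dr p n ((⟨4,-1⟩:R3) * σ + (⟨362,-209⟩:R3) * cj σ - z)) :
    Dv p n (12*σ.re + (358*z.re + 624*z.im)) ∧ Dv p n (12*σ.im - (366*z.im + 210*z.re)) := by
  obtain ⟨a, b⟩ := sys_comp h
  constructor
  · have := (a.mul0 (Dv.int (p := p) (-358))).sub (b.mul0 (Dv.int (p := p) 624))
    refine Dv_eq ?_ this
    push_cast; ring
  · have := (b.mul0 (Dv.int (p := p) 366)).add (a.mul0 (Dv.int (p := p) 210))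
    refine Dv_eq ?_ this
    push_cast; ring

theorem second_odd (p3 : 3 < p) {i : ℕ} (hi : p = 6*i+1) (i1 : 1 ≤ i) (hodd : i % 2 = 1) {j : ℕ} (hj : 3*i = 2*j+1) :
    N1 p (Sx (fun k => k * tt k) (3*i+1) x1).im (-3*((legendreSym p 2 : ℤ)*3^j)*CC i)
      (-(((legendreSym p 2 : ℤ)*3^j)*CC i*(2*Hs 1 (2*i) - Hs 1 (3*i))) - 11*(((legendreSym p 2 : ℤ)*3^j)/CC i)) := by
  obtain ⟨nI, nR, ⟨hU, hV⟩, hX, hY⟩ := first_odd p3 hi i1 hodd hj
  have D := mkData p3 hi i1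
  have hcu := CC_unit (p := p) hi i1
  have hLm := LL_main (p := p) (by omega) (by omega) hi i1
  have hh : p = 2*(3*i)+1 := by omega
  have hs1 : ((-1:ℚ)^i) = -1 := Odd.neg_one_pow ⟨i/2, by omega⟩
  have hth := D.th
  rw [hs1] at hth
  have dp := Dv.p1 (p := p)
  have p0 : (p:ℚ) ≠ 0 := by exact_mod_cast hp.out.ne_zero
  have hM := theta_main p3 hi _ rfl
  obtain ⟨hl, -⟩ := two_h (p := p) p3 hh
  set f := CC i with hf
  set x2 := Hs 1 (2*i)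
  set x3 := Hs 1 (3*i)
  set l : ℚ := ((legendreSym p 2 : ℤ) : ℚ) with hld
  have ll : l^2 = 1 := by rcases hl with h | h <;> rw [hld, h] <;> norm_num
  have l0 : Dv p 0 l := Dv.int _
  have c2 : Dv p 0 (2:ℚ) := by have := Dv.nat (p := p) 2; push_cast at this; exact this
  have c3 : Dv p 0 (3:ℚ) := by have := Dv.nat (p := p) 3; push_cast at this; exact this
  have f0 : f ≠ 0 := hcu.1
  have fi : Dv p 0 (1/f) := Dv.one.div_unit hcu.2
  have c3j : Dv p 0 ((3:ℚ)^j) := by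
    have := Dv.nat (p := p) (3^j)
    push_cast at this; exact this
  have e1Z : E1 p (eE^(3*i)) ⟨-2*l, l⟩ := E1.mk' (Dv_eq (by ring) hU) hV (Dv_eq (by ring) (c2.mul0 l0).neg) l0
  have e1P : E1 p (eE^p) ⟨2,-1⟩ := E1.mk' hX (Dv_eq (by ring) hY) c2 Dv.one.neg
  have e1k : E1 p (AA3 (-2 * (((p+3*i).choose (3*i) : ℕ) : ℚ))) (AA3 (-2)) := E1.A D.K4.one1 D.K4.2.1
  have e1h : E1 p (AA3 (1/2)) (AA3 (1/2)) := E1.const (Dr.A (half_int' p3))
  have hneg : ((-1:R3)^(3*i)) = -1 := Odd.neg_one_pow ⟨j, hj⟩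
  have e1L : E1 p ((1-x1)^(3*i)) ⟨-7,4⟩ := by
    refine ((e1Z.mul e1Z).neg).cong ?_ ?_
    · rw [L_pow, hneg]; ring
    · ext
      · simp only [QuadraticAlgebra.re_neg, QuadraticAlgebra.re_mul]; linear_combination (-7:ℚ)*ll
      · simp only [QuadraticAlgebra.im_neg, QuadraticAlgebra.im_mul]; linear_combination (4:ℚ)*ll
  have e1B : E1 p ((1-w1)^(3*i+p)) ⟨21*(l*3^j), -12*(l*3^j)⟩ := by
    have a1 : E1 p (AA3 (3^(3*i))) (AA3 (-1)) := E1.A (hth.one1) hth.2.1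
    have a2 : E1 p (AA3 (3^j)) (AA3 (3^j)) := E1.const (Dr.A c3j)
    have a3 : E1 p (AA3 3) (AA3 3) := E1.const (Dr.A c3)
    refine (((a1.mul a2).mul a3).mul (e1Z.mul e1P)).cong ?_ ?_
    · rw [w_pow2 p (3*i) hh, hneg]
      have e : s3^(3*i) = AA3 (3^j) * s3 := by rw [hj]; exact s3_pow j
      rw [e]
      have hs := ss3
      linear_combination (-(AA3 (3^(3*i))*AA3 (3^j)*(eE^(3*i)*eE^p))) * hs
    · ext
      · simp only [QuadraticAlgebra.re_mul, QuadraticAlgebra.im_mul, A3_re, A3_im]; ring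
      · simp only [QuadraticAlgebra.re_mul, QuadraticAlgebra.im_mul, A3_re, A3_im]; ring
  set c : ℚ := l*3^j with hcd
  have c0 : Dv p 0 c := l0.mul0 c3j
  have e1S : E1 p (Sx tt (3*i+1) x1) ⟨-3*c*f, 2*c*f⟩ := E1.mk' nR.one1 nI.one1 nR.2.1 nI.2.1
  have e1F : E1 p (AA3 (FF (3*i+p))) (AA3 f) := E1.A D.F1.one1 D.ff
  have hll : Dv p 1 (LL (3*i+p)/p - 1/f) := by
    refine Dv.of_p_mul (n := 1) ?_
    refine Dv_eq ?_ hLm
    rw [show 3*(3*i)+1 = 3*i+p by omega]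
    field_simp
  have e1l : E1 p (AA3 (LL (3*i+p)/p)) (AA3 (1/f)) := E1.A hll fi
  have n_nu : E1 p nu nu := E1.const (nu_int p3)
  have e12 : E1 p (2:R3) (2:R3) := E1.const (by
    have := Dr.A (p := p) c2
    refine Dr_eq ?_ this
    exact map_ofNat AA3 2)
  have e1r : E1 p (1 + w1*v1) (1+w1*v1) := E1.const (by
    have h1 : (1 + w1*v1 : R3) = nu - 1 := by rw [nu_r]; ring
    rw [h1]
    exact (nu_int p3).sub Dr.one)
  have e1u : E1 p u1 u1 := E1.const u1_int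
  have e1κ := (e1k.mul e1P).mul e1h
  have hQ := (((n_nu.mul (e1B.mul e1F)).neg).add ((e12.mul e1r).mul (e1B.mul e1l))).add (e1κ.mul (e1S.add (e1L.mul e1S.cj)))
  have hQ' := hQ.cong rfl (show _ = (⟨-42*(c*f) + 90*(c/f), 24*(c*f) - 52*(c/f)⟩ : R3) by
    have hr : (1 + w1*v1 : R3) = nu - 1 := by rw [nu_r]; ring
    have h2 : (2:R3) = AA3 2 := (map_ofNat AA3 2).symm
    rw [hr, h2]
    unfold nu
    ext
    · simp only [QuadraticAlgebra.re_add, QuadraticAlgebra.im_add, QuadraticAlgebra.re_neg, QuadraticAlgebra.im_neg, QuadraticAlgebra.re_sub, QuadraticAlgebra.im_sub, QuadraticAlgebra.re_mul, QuadraticAlgebra.im_mul, A3_re, A3_im, cj_re, cj_im, QuadraticAlgebra.re_one, QuadraticAlgebra.im_one]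
      ring
    · simp only [QuadraticAlgebra.re_add, QuadraticAlgebra.im_add, QuadraticAlgebra.re_neg, QuadraticAlgebra.im_neg, QuadraticAlgebra.re_sub, QuadraticAlgebra.im_sub, QuadraticAlgebra.re_mul, QuadraticAlgebra.im_mul, A3_re, A3_im, cj_re, cj_im, QuadraticAlgebra.re_one, QuadraticAlgebra.im_one]
      ring)
  have ha1 := (e12.sub e1κ).cong rfl (show _ = (⟨4,-1⟩ : R3) by
    have h2 : (2:R3) = AA3 2 := (map_ofNat AA3 2).symm
    rw [h2]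
    ext
    · simp only [QuadraticAlgebra.re_sub, QuadraticAlgebra.im_sub, QuadraticAlgebra.re_mul, QuadraticAlgebra.im_mul, A3_re, A3_im]
      ring
    · simp only [QuadraticAlgebra.re_sub, QuadraticAlgebra.im_sub, QuadraticAlgebra.re_mul, QuadraticAlgebra.im_mul, A3_re, A3_im]
      ring)
  have ha2 := ((e1κ.mul (e1L.mul e1u)).neg).cong rfl (show _ = (⟨362,-209⟩ : R3) by
    unfold u1
    ext
    · simp only [QuadraticAlgebra.re_neg, QuadraticAlgebra.im_neg, QuadraticAlgebra.re_mul, QuadraticAlgebra.im_mul, A3_re, A3_im]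
      ring
    · simp only [QuadraticAlgebra.re_neg, QuadraticAlgebra.im_neg, QuadraticAlgebra.re_mul, QuadraticAlgebra.im_mul, A3_re, A3_im]
      ring)
  have hσ0 : Dr p 0 (Sx (fun k => k * tt k) (3*i+1) x1 - AA3 ((3*i:ℕ):ℚ) * nu * Sx tt (3*i+1) x1) := by
    refine Dr.sub (Sx_dr _ _ _ _ x1_int fun k _ => ?_) (((Dr.A (Dv.nat _)).mul0 (nu_int p3)).mul0 (S_int p3 _))
    exact (Dv.nat k).mul0 (tt_int (by omega) k)
  have hT : (Sx (fun k => k * tt k) (3*i+1) x1).im = (Sx (fun k => k * tt k) (3*i+1) x1 - AA3 ((3*i:ℕ):ℚ) * nu * Sx tt (3*i+1) x1).im +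
      ((3*i:ℕ):ℚ) * (2*(Sx tt (3*i+1) x1).im - 2/3*(Sx tt (3*i+1) x1).re) := by
    unfold nu
    simp only [QuadraticAlgebra.im_sub, QuadraticAlgebra.im_mul, QuadraticAlgebra.re_mul, A3_re, A3_im]
    ring
  generalize Sx (fun k => k * tt k) (3*i+1) x1 - AA3 ((3*i:ℕ):ℚ) * nu * Sx tt (3*i+1) x1 = σ at *
  have hlp : AA3 (LL (3*i+p)) = AA3 p * AA3 (LL (3*i+p)/p) := by
    rw [← map_mul]; congr 1; field_simp
  rw [hlp] at hM
  set S := Sx tt (3*i+1) x1 with hS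
  set L := (1-x1)^(3*i) with hLd
  set B := (1-w1)^(3*i+p) with hBd
  set κ := AA3 (-2 * (((p+3*i).choose (3*i) : ℕ) : ℚ)) * eE^p with hκ
  set Q := -(nu * (B * AA3 (FF (3*i+p)))) + 2 * (1 + w1*v1) * (B * AA3 (LL (3*i+p)/p)) + κ * AA3 (1/2) * (S + L * cj S) with hQd
  have h6 : Dr p 2 ((2 - κ * AA3 (1/2)) * σ + (-(κ * AA3 (1/2) * (L * u1))) * cj σ - AA3 p * Q) := by
    refine Dr_eq ?_ hM
    rw [hQd]
    ring
  have dpr : Dr p 1 (AA3 (p:ℚ)) := Dr.A dp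
  have step1 : Dr p 1 ((⟨4,-1⟩:R3) * σ + (⟨362,-209⟩:R3) * cj σ - 0) := by
    have h7 := (((h6.mono (show (1:ℤ) ≤ 2 by norm_num)).add (dpr.mul0 hQ'.int)).sub (ha1.1.mul0 hσ0)).sub (ha2.1.mul0 hσ0.cj)
    refine Dr_eq ?_ h7
    ring
  have s1 := sys_solve p3 step1
  have hσ1 : Dr p 1 σ := by
    refine ⟨Dv_div12 p3 (Dv_eq ?_ s1.1), Dv_div12 p3 (Dv_eq ?_ s1.2)⟩
    · simp
    · simp
  have step2 : Dr p 2 ((⟨4,-1⟩:R3) * σ + (⟨362,-209⟩:R3) * cj σ - AA3 p * (⟨-42*(c*f) + 90*(c/f), 24*(c*f) - 52*(c/f)⟩ : R3)) := by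
    have h7 := ((h6.add (dpr.mul hQ'.1)).sub (ha1.1.mul hσ1)).sub (ha2.1.mul hσ1.cj)
    refine Dr_eq ?_ h7
    ring
  have s2 := (sys_solve p3 step2).2
  have cf0 : Dv p 0 (c*f) := c0.mul0 D.ff
  have cif0 : Dv p 0 (c/f) := Dv_eq (by ring) (c0.mul0 fi)
  have nσ : N1 p σ.im 0 (-3*(c*f) - 11*(c/f)) := by
    refine ⟨Dv_div12 p3 (Dv_eq ?_ s2), Dv.zero _, ?_⟩
    · simp only [QuadraticAlgebra.re_mul, QuadraticAlgebra.im_mul, A3_re, A3_im]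
      ring
    · refine Dv_eq ?_ ((cf0.mul0 (Dv.int (p := p) (-3))).sub (cif0.mul0 (Dv.int (p := p) 11)))
      push_cast; ring
  have n3i : N1 p ((3*i:ℕ):ℚ) (-(1/2)) (1/2) := by
    refine ⟨?_, (half_int' p3).neg, half_int' p3⟩
    have : (p:ℚ) = 2*((3*i:ℕ):ℚ)+1 := by exact_mod_cast hh
    refine Dv_eq ?_ (Dv.zero (p := p) 2)
    rw [this]; ring
  have c23 : Dv p 0 (2/3:ℚ) := Dv_eq (by ring) (c2.mul0 (third_int p3))
  have nT := nσ.add (n3i.mul (((N1.intc 2).mul nI).sub ((N1.const c23).mul nR)))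
  refine nT.congr ?_ ?_ ?_
  · rw [hT]; push_cast; ring
  · push_cast; ring
  · push_cast; ring

end

end

end Pool.Agent.N926.Qd
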