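import Mathlib

/-! the sign of `y` -/

set_option autoImplicit false
set_option linter.unusedVariables false
set_option linter.unusedSectionVars false

namespace Pool.Agent.N926.Qd

open NumberTheorySymbols

theorem chi4_three {p : ℕ} (h4 : p % 4 = 3) : ZMod.χ₄ p = -1 := by
  rw [ZMod.χ₄_nat_three_mod_four h4]

theorem cop_xy {p : ℕ} (hp : p.Prime) {x y : ℤ} (h : x^2 + 3*y^2 = p) : IsCoprime x y := by
  rw [Int.isCoprime_iff_gcd_eq_one]
  by_contra hg
  obtain ⟨q, hq, hqd⟩ := Nat.exists_prime_and_dvd hg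
  have hx : (q:ℤ) ∣ x := dvd_trans (Int.natCast_dvd_natCast.2 hqd) (Int.gcd_dvd_left ..)
  have hy : (q:ℤ) ∣ y := dvd_trans (Int.natCast_dvd_natCast.2 hqd) (Int.gcd_dvd_right ..)
  obtain ⟨a, ha⟩ := hx
  obtain ⟨b, hb⟩ := hy
  have h1 : (q:ℤ)^2 ∣ p := ⟨a^2+3*b^2, by rw [← h, ha, hb]; ring⟩
  have h2 : q^2 ∣ p := by exact_mod_cast h1
  have h3 : q ∣ p := dvd_trans (dvd_pow_self q two_ne_zero) h2
  have h4 := (Nat.prime_dvd_prime_iff_eq hq hp).1 h3
  rw [h4] at h2
  have h5 := Nat.le_of_dvd hp.pos h2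
  have h6 := hp.one_lt
  nlinarith

theorem gcd_one_of_cop {x : ℤ} {y : ℤ} {m : ℕ} (h : IsCoprime x y) (hm : (m:ℤ) ∣ y) : x.gcd m = 1 := by
  rw [← Int.isCoprime_iff_gcd_eq_one]
  exact IsCoprime.of_isCoprime_of_dvd_right h hm

section
variable {p : ℕ} [hp : Fact p.Prime]

/-- `(y/p) = 1` -/
theorem sg_y (h4 : p % 4 = 3) {x y : ℤ} (h : x^2 + 3*y^2 = p) (hy : y % 4 = 1) : legendreSym p y = 1 := by
  rw [jacobiSym.legendreSym.to_jacobiSym]
  have hc := cop_xy hp.out h
  obtain ⟨n, hn⟩ : ∃ n : ℕ, y = n ∨ y = -(n:ℤ) := ⟨y.natAbs, by omega⟩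
  have hny : (n:ℤ) ∣ y := by
    rcases hn with h | h
    · rw [h]
    · rw [h]; exact (dvd_neg).2 (dvd_refl _)
  have key : J((p:ℤ) | n) = 1 := by
    have h1 : J((p:ℤ) | n) = J(x^2 | n) := by
      refine jacobiSym.mod_left' ?_
      rw [← h]
      obtain ⟨c, hc⟩ := hny
      have : x^2 + 3*y^2 = x^2 + n * (3*c*y) := by
        have : y^2 = n*c*y := by rw [← hc]; ring
        rw [this]; ring
      rw [this]
      simp
    rw [h1]
    exact jacobiSym.sq_one' (gcd_one_of_cop hc hny)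
  have hpodd : Odd p := by rw [Nat.odd_iff]; omega
  rcases hn with hn | hn
  · have e4 : n % 4 = 1 := by omega
    rw [hn, jacobiSym.quadratic_reciprocity_one_mod_four e4 hpodd]
    exact key
  · have e4 : n % 4 = 3 := by omega
    rw [hn, jacobiSym.neg _ hpodd, chi4_three h4, jacobiSym.quadratic_reciprocity_three_mod_four e4 h4, key]
    norm_num

theorem sg_3 (h4 : p % 4 = 3) (h3 : p % 3 = 1) : legendreSym p 3 = -1 := by
  rw [jacobiSym.legendreSym.to_jacobiSym]
  have h1 : J(((3:ℕ):ℤ) | p) = -J((p:ℤ) | 3) := jacobiSym.quadratic_reciprocity_three_mod_four (by norm_num) h4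
  have h2 : J((p:ℤ) | 3) = J(1 | 3) := jacobiSym.mod_left' (by omega)
  rw [h2, jacobiSym.one_left] at h1
  exact_mod_cast h1

theorem J23 : J(2 | 3) = -1 := by
  rw [jacobiSym.at_two (by decide)]
  decide

theorem Jm13 : J(-1 | 3) = -1 := by
  rw [jacobiSym.at_neg_one (by decide)]
  decide

theorem sg_m (h4 : p % 4 = 3) {x y : ℤ} (h : x^2 + 3*y^2 = p) {m : ℕ} (hm : Odd m) (hmx : (m:ℤ) ∣ x) : J((m:ℤ) | p) = J((m:ℤ) | 3) := by
  have hc := (cop_xy hp.out h).symm
  have hg := gcd_one_of_cop hc hmx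
  have key : J((p:ℤ) | m) = J(3 | m) := by
    have h1 : J((p:ℤ) | m) = J(3*y^2 | m) := by
      refine jacobiSym.mod_left' ?_
      rw [← h]
      obtain ⟨c, hc⟩ := hmx
      have : x^2 + 3*y^2 = 3*y^2 + m * (c*x) := by rw [hc]; ring
      rw [this]
      simp
    rw [h1, jacobiSym.mul_left, jacobiSym.sq_one' hg, mul_one]
  have hpodd : Odd p := by rw [Nat.odd_iff]; omega
  have hm4 : m % 4 = 1 ∨ m % 4 = 3 := by
    have := Nat.odd_iff.1 hm
    omega
  rcases hm4 with hm4 | hm4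
  · rw [jacobiSym.quadratic_reciprocity_one_mod_four hm4 hpodd, key]
    have := jacobiSym.quadratic_reciprocity_one_mod_four hm4 (b := 3) (by decide)
    exact_mod_cast this.symm
  · rw [jacobiSym.quadratic_reciprocity_three_mod_four hm4 h4, key]
    have := jacobiSym.quadratic_reciprocity_three_mod_four hm4 (b := 3) (by norm_num)
    exact_mod_cast this.symm

theorem sg_x (h4 : p % 4 = 3) (p3 : 3 < p) {x y : ℤ} (h : x^2 + 3*y^2 = p) (hx : x % 3 = 1) : legendreSym p x = -legendreSym p 2 := by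
  have hpodd : Odd p := by rw [Nat.odd_iff]; omega
  have hx0 : x.natAbs ≠ 0 := by omega
  obtain ⟨k, m, hm, hkm⟩ := Nat.exists_eq_two_pow_mul_odd hx0
  have hmx : (m:ℤ) ∣ x := by
    rw [← Int.dvd_natAbs, hkm]
    push_cast
    exact Dvd.intro_left _ rfl
  have hJ := sg_m h4 h hm hmx
  obtain ⟨s, hs, hxs⟩ : ∃ s : ℤ, (s = 1 ∨ s = -1) ∧ x = s * (2^k * m) := by
    rcases le_or_gt 0 x with h0 | h0
    · refine ⟨1, Or.inl rfl, ?_⟩
      have : x = (x.natAbs : ℤ) := by omega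
      rw [this, hkm]; push_cast; ring
    · refine ⟨-1, Or.inr rfl, ?_⟩
      have : x = -(x.natAbs : ℤ) := by omega
      rw [this, hkm]; push_cast; ring
  have hs3 : J(s | p) = J(s | 3) := by
    rcases hs with hs | hs
    · rw [hs, jacobiSym.one_left, jacobiSym.one_left]
    · rw [hs, Jm13, jacobiSym.at_neg_one hpodd, chi4_three h4]
  have e1 : J(x | 3) = 1 := by
    have : J(x | 3) = J(1 | 3) := jacobiSym.mod_left' (by omega)
    rw [this, jacobiSym.one_left]
  have e2 : J(x | 3) = J(s | 3) * ((-1)^k * J((m:ℤ) | 3)) := by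
    rw [hxs, jacobiSym.mul_left, jacobiSym.mul_left, jacobiSym.pow_left, J23]
  have e3 : J(x | p) = J(s | 3) * (legendreSym p 2^k * J((m:ℤ) | 3)) := by
    rw [hxs, jacobiSym.mul_left, jacobiSym.mul_left, jacobiSym.pow_left, hs3, hJ, jacobiSym.legendreSym.to_jacobiSym]
  rw [jacobiSym.legendreSym.to_jacobiSym p x, e3]
  rw [e2] at e1
  have hl : legendreSym p 2 = 1 ∨ legendreSym p 2 = -1 := by
    refine legendreSym.eq_one_or_neg_one p ?_
    intro h0
    rw [ZMod.intCast_zmod_eq_zero_iff_dvd] at h0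
    have h1 : p ∣ 2 := by exact_mod_cast h0
    have := Nat.le_of_dvd (by norm_num) h1
    omega
  -- parity of x
  have hyo : y % 2 = 1 := by
    by_contra hc
    obtain ⟨a, ha⟩ : ∃ a, y = 2*a := ⟨y/2, by omega⟩
    have h5 : ∃ b, x^2 = 4*b ∨ x^2 = 4*b+1 := by
      rcases Int.even_or_odd x with ⟨b, hb⟩ | ⟨b, hb⟩
      · exact ⟨b^2, Or.inl (by rw [hb]; ring)⟩
      · exact ⟨b^2+b, Or.inr (by rw [hb]; ring)⟩
    obtain ⟨b, hb⟩ := h5
    have h6 : (p:ℤ) = x^2 + 4*(3*a^2) := by rw [← h, ha]; ring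
    omega
  obtain ⟨a, ha⟩ : ∃ a, y = 2*a+1 := ⟨y/2, by omega⟩
  obtain ⟨a', ha'⟩ : ∃ a', a^2 + a = 2*a' := by
    obtain ⟨c, hc⟩ := Int.even_mul_succ_self a
    exact ⟨c, by linear_combination hc⟩
  have hy8 : y^2 = 8*a' + 1 := by rw [ha]; linear_combination 4*ha'
  have hk : k = 1 ∨ (2 ≤ k ∧ p % 8 = 3) := by
    rcases Nat.lt_or_ge k 2 with hk | hk
    · interval_cases k
      · exfalso
        obtain ⟨b, hb⟩ := hm
        have hx2 : x^2 = 4*((b:ℤ)^2+b) + 1 := by
          have : x^2 = (s^2) * (m:ℤ)^2 := by rw [hxs]; ring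
          have hs2 : s^2 = 1 := by rcases hs with h | h <;> rw [h] <;> norm_num
          rw [this, hs2, hb]; push_cast; ring
        omega
      · exact Or.inl rfl
    · right
      refine ⟨hk, ?_⟩
      obtain ⟨k', rfl⟩ := Nat.exists_eq_add_of_le hk
      have hx2 : x^2 = 16*(s*(2^k'*m))^2 := by rw [hxs, pow_add]; ring
      generalize (s*(2^k'*(m:ℤ)))^2 = z at hx2
      omega
  rcases hk with rfl | ⟨hk, h8⟩
  · rw [pow_one] at e1 ⊢
    linear_combination (-legendreSym p 2) * e1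
  · have hl1 : legendreSym p 2 = -1 := by
      rw [legendreSym.at_two (by omega), ZMod.χ₈_nat_eq_if_mod_eight]
      have : ¬ p % 2 = 0 := by omega
      simp [this, h8]
    rw [hl1]
    rw [e1]; norm_num

/-- the sign claim: `y ≡ (-1)^(j+1) λ 3^j x (mod p)` with `p = 4j+3` -/
theorem sign_claim (p3 : 3 < p) {j : ℕ} (hj : p = 4*j+3) (h3 : p % 3 = 1) {x y : ℤ} (h : x^2 + 3*y^2 = p) (hx : x % 3 = 1) (hy : y % 4 = 1) :
    (p:ℤ) ∣ y - (-1)^(j+1) * legendreSym p 2 * 3^j * x := by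
  have h4 : p % 4 = 3 := by omega
  have hly := sg_y h4 h hy
  have hlx := sg_x h4 p3 h hx
  have hl3 := sg_3 h4 h3
  have hl : legendreSym p 2 = 1 ∨ legendreSym p 2 = -1 := by
    refine legendreSym.eq_one_or_neg_one p ?_
    intro h0
    rw [ZMod.intCast_zmod_eq_zero_iff_dvd] at h0
    have h1 : p ∣ 2 := by exact_mod_cast h0
    have := Nat.le_of_dvd (by norm_num) h1
    omega
  have hm1 : legendreSym p (-1) = -1 := by rw [legendreSym.at_neg_one (by omega), chi4_three h4]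
  set l := legendreSym p 2 with hld
  have ll : l^2 = 1 := by rcases hl with h | h <;> rw [h] <;> norm_num
  have hll : legendreSym p l = l := by
    rcases hl with h | h
    · rw [h]; exact legendreSym.at_one p
    · rw [h]; exact hm1
  set t := (-1)^(j+1) * l * 3^j * x with ht
  have hpow : ∀ (a : ℤ) (n : ℕ), legendreSym p (a^n) = (legendreSym p a)^n := by
    intro a n
    induction n with
    | zero => rw [pow_zero, pow_zero]; exact legendreSym.at_one p
    | succ n ih => rw [pow_succ, legendreSym.mul, ih, pow_succ]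
  have hlt : legendreSym p t = 1 := by
    rw [ht, legendreSym.mul, legendreSym.mul, legendreSym.mul, hpow, hpow, hm1, hl3, hlx, hll]
    have e : ((-1:ℤ)^j)^2 = 1 := by rw [← pow_mul, mul_comm, pow_mul]; norm_num
    rw [pow_succ]
    linear_combination l^2*e + ll
  -- `3^(2j+1) ≡ -1`
  have h31 : (p:ℤ) ∣ 3^(2*j+1) + 1 := by
    have e1 := legendreSym.eq_pow p 3
    rw [hl3, show p/2 = 2*j+1 by omega] at e1
    rw [← ZMod.intCast_zmod_eq_zero_iff_dvd]
    push_cast at e1 ⊢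
    rw [← e1]; ring
  have hsq : (p:ℤ) ∣ 3*((y-t)*(y+t)) := by
    obtain ⟨u, hu⟩ := h31
    have e : ((-1:ℤ)^j)^2 = 1 := by rw [← pow_mul, mul_comm, pow_mul]; norm_num
    refine ⟨1 - u*x^2, ?_⟩
    have e3 : (3:ℤ)^(2*j+1) = 3*(3^j)^2 := by rw [pow_succ, ← pow_mul, mul_comm j 2]; ring
    rw [e3] at hu
    have et : t^2 = (3^j)^2*x^2 := by
      rw [ht, pow_succ]
      linear_combination ((-1:ℤ)^j)^2 * (3^j)^2*x^2 * ll + (3^j)^2*x^2*e
    linear_combination (-3:ℤ)*et + h - x^2*hu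
  have hprime : Prime (p:ℤ) := Nat.prime_iff_prime_int.1 hp.out
  rcases hprime.dvd_or_dvd hsq with h5 | h5
  · exfalso
    have : p ∣ 3 := by exact_mod_cast h5
    have := Nat.le_of_dvd (by norm_num) this
    omega
  rcases hprime.dvd_or_dvd h5 with h6 | h6
  · exact h6
  · exfalso
    have h7 : ((y:ℤ) : ZMod p) = ((-t : ℤ) : ZMod p) := by
      rw [← sub_eq_zero, ← Int.cast_sub, ZMod.intCast_zmod_eq_zero_iff_dvd]
      simpa using h6
    have h8 : legendreSym p y = legendreSym p (-t) := by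
      unfold legendreSym
      rw [h7]
    rw [neg_eq_neg_one_mul, legendreSym.mul, hlt, hm1, hly] at h8
    norm_num at h8

end

end Pool.Agent.N926.Qd
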