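import Pool.Agent.N926.Qd.J
import Pool.Agent.N926.Qd.Sg

/-! the final evaluation in terms of `y` -/

set_option autoImplicit false
set_option linter.unusedVariables false
set_option linter.unusedSectionVars false

namespace Pool.Agent.N926.Qd

open Finset Pool.Agent.N926.Sup2 Pool.Agent.N926.Sup Pool.Agent.N926.F54 Pool.Agent.N926.F37 Pool.Agent.N926.Tri Pool.Agent.N926.Fib

noncomputable section

section
variable {p : ℕ} [hp : Fact p.Prime]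

theorem y_unit' (p3 : 3 < p) {x y : ℤ} (h : x^2 + 3*y^2 = p) (hy : y ≠ 0) : ¬ (p:ℤ) ∣ y := by
  rintro ⟨c, hc⟩
  have hc0 : c ≠ 0 := by rintro rfl; simp at hc; exact hy hc
  have h1 : 1 ≤ c^2 := by have := sq_nonneg c; have : 0 < c^2 := by positivity
                          omega
  have h2 : (3:ℤ) < p := by exact_mod_cast p3
  have h5 : (p:ℤ)^2 * 1 ≤ (p:ℤ)^2 * c^2 := mul_le_mul_of_nonneg_left h1 (sq_nonneg _)
  have h6 : (3:ℤ)*p < p*p := by nlinarith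
  rw [hc] at h
  nlinarith [sq_nonneg x]

/-- both congruences of part (a), `x ≡ 1 (mod 3)` -/
theorem part_a (p3 : 3 < p) {i : ℕ} (hi : p = 6*i+1) (i1 : 1 ≤ i) (hodd : i % 2 = 1) {j : ℕ} (hj : 3*i = 2*j+1)
    {x y : ℤ} (h : x^2 + 3*y^2 = p) (hx : x % 3 = 1) (hy : y % 4 = 1) :
    Dv p 2 ((Sx tt (3*i+1) x1).im - (-1)^(j+1) * (4*(y:ℚ) - p/(3*(y:ℚ)))) ∧
    Dv p 2 ((Sx (fun k => k * tt k) (3*i+1) x1).im - (-1)^j * (6*(y:ℚ) - 7*p/(3*(y:ℚ)))) := by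
  have h2 : p ≠ 2 := by omega
  have h3 : p ≠ 3 := by omega
  have D := mkData p3 hi i1
  have nI := (first_odd p3 hi i1 hodd hj).1
  have nT := second_odd p3 hi i1 hodd hj
  have hS := S_main h2 h3 hi i1 h hx
  have hsg := sign_claim p3 (j := j) (by omega) (by omega) h hx hy
  have hcu := CC_unit (p := p) hi i1
  have hs1 : ((-1:ℚ)^i) = -1 := Odd.neg_one_pow ⟨i/2, by omega⟩
  have hth := D.th
  rw [hs1] at hth
  have hh : p = 2*(3*i)+1 := by omega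
  obtain ⟨hl, -⟩ := two_h (p := p) p3 hh
  have dp := Dv.p1 (p := p)
  have p0 : (p:ℚ) ≠ 0 := by exact_mod_cast hp.out.ne_zero
  have c3j : Dv p 0 ((3:ℚ)^j) := by
    have := Dv.nat (p := p) (3^j)
    push_cast at this; exact this
  set f := CC i with hf
  set x2 := Hs 1 (2*i)
  set x3 := Hs 1 (3*i)
  set l : ℚ := ((legendreSym p 2 : ℤ) : ℚ) with hld
  have ll : l^2 = 1 := by rcases hl with h | h <;> rw [hld, h] <;> norm_num
  have l0 : Dv p 0 l := Dv.int _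
  set s : ℚ := (-1)^(j+1) with hsd
  have ss : s^2 = 1 := by rw [hsd, ← pow_mul, mul_comm, pow_mul]; norm_num
  have sj : (-1:ℚ)^j = -s := by rw [hsd, pow_succ]; ring
  have s0 : Dv p 0 s := by
    have := Dv.int (p := p) ((-1)^(j+1))
    push_cast at this; exact this
  set c : ℚ := l*3^j with hcd
  have c0 : Dv p 0 c := l0.mul0 c3j
  have c2 : Dv p 0 (2:ℚ) := by have := Dv.nat (p := p) 2; push_cast at this; exact this
  have c3 : Dv p 0 (3:ℚ) := by have := Dv.nat (p := p) 3; push_cast at this; exact this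
  have t3 := third_int (p := p) p3
  have th := half_int' (p := p) p3
  have x0 : x ≠ 0 := by rintro rfl; norm_num at hx
  have y0 : y ≠ 0 := by rintro rfl; norm_num at hy
  have hxu : ¬ (p:ℤ) ∣ x := by
    rintro ⟨e, he⟩
    have he0 : e ≠ 0 := by rintro rfl; simp at he; exact x0 he
    have h1 : 1 ≤ e^2 := by have : 0 < e^2 := by positivity
                            omega
    have h2 : (3:ℤ) < p := by exact_mod_cast p3
    have h5 : (p:ℤ)^2 * 1 ≤ (p:ℤ)^2 * e^2 := mul_le_mul_of_nonneg_left h1 (sq_nonneg _)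
    have h6 : (3:ℤ)*p < p*p := by nlinarith
    rw [he] at h
    nlinarith [sq_nonneg y]
  have hyu := y_unit' p3 h y0
  have xq : (x:ℚ) ≠ 0 := by exact_mod_cast x0
  have yq : (y:ℚ) ≠ 0 := by exact_mod_cast y0
  have xi : Dv p 0 (1/(x:ℚ)) := Dv.one.div_unit (unit_int hxu)
  have yi : Dv p 0 (1/(y:ℚ)) := Dv.one.div_unit (unit_int hyu)
  have fi : Dv p 0 (1/f) := Dv.one.div_unit hcu.2
  have xz : Dv p 0 (x:ℚ) := Dv.int x
  have yz : Dv p 0 (y:ℚ) := Dv.int y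
  have x20 := D.x2i
  have x30 := D.x3i
  have ff := D.ff
  set g : ℚ := 1/(x:ℚ) with hg
  have gx : g * x = 1 := by rw [hg]; field_simp
  -- A
  have H1 : Dv p 2 (f + p*(f*(x2/2-x3/3)) - (2*x - p*g/2)) := by
    refine Dv_eq ?_ (hS.sub D.SS.1)
    rw [hg]
    field_simp
    ring
  have H1' : Dv p 1 (f - 2*x) := by
    have a : Dv p 0 (f*(x2/2-x3/3)) := D.SS.2.2
    refine Dv_eq ?_ (((H1.mono (show (1:ℤ) ≤ 2 by norm_num)).sub (dp.mul0 a)).sub ((dp.mul0 xi).mul0 th))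
    ring
  have H6 : Dv p 1 (1/f - g/2) := by
    have := ((H1'.mul0 fi).mul0 (xi.mul0 th)).neg
    refine Dv_eq ?_ this
    have := hcu.1
    field_simp
    linear_combination (2:ℚ)*gx
  -- B
  have hB : Dv p 1 ((y:ℚ) - s*c*x) := by
    have := Dv.of_dvd (p := p) (n := 1) (z := y - (-1)^(j+1) * legendreSym p 2 * 3^j * x) (by simpa using hsg)
    refine Dv_eq ?_ this
    push_cast
    rw [hcd, hsd, hld]
    ring
  -- C: `3 c² ~ (-1, x2/3)`
  have hC : Dv p 2 (3*c^2 - (-1 + p*(x2/3))) := by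
    have e3 : (3:ℚ)^(3*i) = 3*(3^j)^2 := by rw [hj, pow_succ, mul_comm 2 j, pow_mul]; ring
    refine Dv_eq ?_ hth.1
    rw [e3, hcd]
    linear_combination (-3*(3^j)^2 : ℚ)*ll
  have hC1 : Dv p 1 (3*c^2 + 1) := by
    refine Dv_eq ?_ ((hC.mono (show (1:ℤ) ≤ 2 by norm_num)).add (dp.mul0 (x20.mul0 t3)))
    ring
  set W : ℚ := s*c with hW
  have W0 : Dv p 0 W := s0.mul0 c0
  have sW : s*W = c := by rw [hW]; linear_combination c*ss
  have hpq : (x:ℚ)^2 + 3*(y:ℚ)^2 = p := by exact_mod_cast h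
  -- H2
  have hr0 : Dv p 0 (W*(x*x2/6 - g/2)) := by
    refine W0.mul0 (((Dv_eq ?_ (((xz.mul0 x20).mul0 th).mul0 t3))).sub (Dv_eq ?_ (xi.mul0 th)))
    · ring
    · rw [hg]; ring
  have hB2 : Dv p 1 ((y:ℚ) - (W*x + p*(W*(x*x2/6 - g/2)))) := by
    refine Dv_eq ?_ (hB.sub (dp.mul0 hr0))
    ring
  have nτ : N1 p (W*x + p*(W*(x*x2/6 - g/2))) (W*x) (W*(x*x2/6 - g/2)) :=
    ⟨Dv_eq (by ring) (Dv.zero (p := p) 2), W0.mul0 xz, hr0⟩
  have ny2 : N1 p ((y:ℚ)^2) (-(x^2/3)) (1/3) := by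
    refine ⟨Dv_eq ?_ (Dv.zero (p := p) 2), (Dv_eq (by ring) ((xz.mul0 xz).mul0 t3) : Dv p 0 ((x:ℚ)^2/3)).neg, t3⟩
    linear_combination (-(1/3):ℚ)*hpq
  have hW2 : N1 p (W^2) (-(1/3)) (x2/9) := by
    refine ⟨?_, t3.neg, Dv_eq (by ring) ((x20.mul0 t3).mul0 t3)⟩
    refine Dv_eq ?_ (hC.mul0 t3)
    rw [hW]
    linear_combination (-c^2)*ss
  have nq : N1 p ((x:ℚ)^2 + p*(x^2*x2/3 - 1)) (x^2) (x^2*x2/3 - 1) := by
    refine ⟨Dv_eq (by ring) (Dv.zero (p := p) 2), Dv_eq (by ring) (xz.mul0 xz), ?_⟩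
    refine Dv_eq ?_ ((((xz.mul0 xz).mul0 x20).mul0 t3).sub Dv.one)
    ring
  have nτ2 := hW2.mul nq
  have hτ2 : Dv p 2 ((W*x + p*(W*(x*x2/6 - g/2)))^2 - W^2*((x:ℚ)^2 + p*(x^2*x2/3 - 1))) := by
    refine Dv_eq ?_ ((Dv.p_pow (p := p) 2).mul0 (hr0.mul0 hr0))
    linear_combination (p*W^2)*gx
  have hy2 : Dv p 2 ((y:ℚ)^2 - (W*x + p*(W*(x*x2/6 - g/2)))^2) := by
    refine Dv_eq ?_ ((ny2.1.sub nτ2.1).sub hτ2)
    ring
  have H2 : Dv p 2 ((y:ℚ) - (W*x + p*(W*(x*x2/6 - g/2)))) := by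
    refine Dv_div2 p3 ?_
    have := (hy2.add (hB2.mul hB2)).mul0 yi
    refine Dv_eq ?_ this
    field_simp
    ring
  have H3 : Dv p 1 (1/(y:ℚ) + 3*W*g) := by
    -- `y (-3 W g) ≡ -3 W² = 1`
    have a1 := (hB.mul0 (W0.mul0 (xi.mul0 c3)))
    have a2 := (a1.add hC1).mul0 yi
    refine Dv_eq ?_ a2
    have W2 : W^2 = c^2 := by rw [hW]; linear_combination c^2*ss
    have e : ((y:ℚ) - W*x)*(W*(g*3)) + (3*c^2+1) = y*(3*W*g) + 1 := by
      linear_combination (-3*W^2)*gx - 3*W2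
    rw [e, mul_one_div, add_div, mul_div_assoc, mul_comm (y:ℚ), div_mul_cancel₀ _ yq]
    ring
  have H4 := nI.1
  have H5 := nT.1
  have sg0 : Dv p 0 (s*(1/3)) := s0.mul0 t3
  have key : Dv p 2 (p*(1/(y:ℚ) + 3*W*g)) := by
    have := dp.mul H3
    exact this
  constructor
  · have a := ((((H4.add (H1.mul0 (c2.mul0 c0))).add ((dp.mul H1').mul0 ((c0.mul0 x20).mul0 t3))).sub (H2.mul0 (s0.mul0 (c2.mul0 c2)))).add (key.mul0 sg0))
    refine Dv_eq ?_ a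
    have e : (p:ℚ)/(3*(y:ℚ)) = p*(1/(y:ℚ))/3 := by field_simp
    rw [e]
    linear_combination (4*(x + p*(x*x2/6 - g/2)) + p*g)*sW
  · have a := (((H5.add ((dp.mul H6).mul0 ((c0.mul0 (Dv.int (p := p) (-11)))))).sub (key.mul0 (sg0.mul0 ((Dv.int (p := p) 11).mul0 th)))))
    have b := ((((H1.mul0 (c2.mul0 c0)).add ((dp.mul H1').mul0 ((c0.mul0 x20).mul0 t3))).sub (H2.mul0 (s0.mul0 (c2.mul0 c2)))).add (key.mul0 sg0)).mul0 (c3.mul0 th)
    refine Dv_eq ?_ (a.sub b)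
    have e : 7*(p:ℚ)/(3*(y:ℚ)) = 7*(p*(1/(y:ℚ)))/3 := by field_simp
    rw [e, sj]
    push_cast
    linear_combination (-(6*(x + p*(x*x2/6 - g/2)) + 7*p*g))*sW

end

end

end Pool.Agent.N926.Qd
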